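import Mathlib
import Pool.Agent.H398R2.RK.Smooth

/-! Smooth integers: Rankin's bound without the loss of a logarithm. -/

set_option autoImplicit false

namespace Pool.Agent.V5helper42.LR

open Finset Pool.Agent.H318R2.Cr Pool.Agent.H398R2.RK ArithmeticFunction

open scoped Classical

/-- the `v`-smooth integers up to `L` -/
noncomputable def Sm (v L : ℕ) : Finset ℕ := (Icc 1 L).filter (fun n => ∀ p : ℕ, p.Prime → p ∣ n → p ≤ v)

theorem mem_Sm {v L n : ℕ} : n ∈ Sm v L ↔ (1 ≤ n ∧ n ≤ L) ∧ ∀ p : ℕ, p.Prime → p ∣ n → p ≤ v := by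
  unfold Sm
  rw [mem_filter, mem_Icc]

/-- the sum of von Mangoldt's function over the smooth integers -/
noncomputable def TT (v t : ℕ) : ℝ := ∑ d ∈ Sm v t, vonMangoldt d

theorem TT_le_psi (v t : ℕ) : TT v t ≤ Chebyshev.psi t := by
  unfold TT
  rw [Chebyshev.psi_eq_sum_Icc, Nat.floor_natCast]
  apply sum_le_sum_of_subset_of_nonneg
  · intro n hn
    have := (mem_Sm.1 hn).1
    rw [mem_Icc]
    omega
  · intro n _ _
    exact vonMangoldt_nonneg

theorem TT_le_log (v t : ℕ) (ht : 1 ≤ t) : TT v t ≤ (Nat.primeCounting v : ℝ) * Real.log t := by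
  set M : ℕ := ∏ p ∈ Pz v, p ^ Nat.log p t with hM
  have hM0 : M ≠ 0 := by
    rw [hM, prod_ne_zero_iff]
    intro p hp
    exact pow_ne_zero _ (mem_Pz.1 hp).1.ne_zero
  have h1 : TT v t ≤ ∑ d ∈ M.divisors, vonMangoldt d := by
    unfold TT
    rw [← sum_filter_add_sum_filter_not (Sm v t) (fun d => IsPrimePow d)]
    have h2 : ∑ d ∈ (Sm v t).filter (fun d => ¬ IsPrimePow d), vonMangoldt d = 0 := by
      apply sum_eq_zero
      intro d hd
      exact vonMangoldt_eq_zero_iff.2 (mem_filter.1 hd).2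
    rw [h2, add_zero]
    apply sum_le_sum_of_subset_of_nonneg
    · intro d hd
      rw [mem_filter] at hd
      obtain ⟨hd1, hd2⟩ := hd
      obtain ⟨hd3, hd4⟩ := mem_Sm.1 hd1
      rw [Nat.mem_divisors]
      refine ⟨?_, hM0⟩
      obtain ⟨p, k, hp, hk, rfl⟩ := hd2
      have hp' : p.Prime := hp.nat_prime
      have hpv : p ≤ v := hd4 p hp' (dvd_pow_self p hk.ne')
      have hkl : k ≤ Nat.log p t := Nat.le_log_of_pow_le hp'.one_lt hd3.2
      exact (pow_dvd_pow p hkl).trans (dvd_prod_of_mem (fun p => p ^ Nat.log p t) (mem_Pz.2 ⟨hp', hpv⟩))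
    · intro d _ _
      exact vonMangoldt_nonneg
  rw [vonMangoldt_sum] at h1
  refine h1.trans ?_
  rw [hM, Nat.cast_prod, Real.log_prod (by
    intro p hp
    have := (mem_Pz.1 hp).1.ne_zero
    exact_mod_cast pow_ne_zero _ this)]
  have h3 : ∀ p ∈ Pz v, Real.log ((p ^ Nat.log p t : ℕ) : ℝ) ≤ Real.log t := by
    intro p hp
    apply Real.log_le_log
    · exact_mod_cast Nat.pos_of_ne_zero (pow_ne_zero _ (mem_Pz.1 hp).1.ne_zero)
    · exact_mod_cast Nat.pow_log_le_self p (by omega)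
  refine (sum_le_sum h3).trans ?_
  rw [sum_const, nsmul_eq_mul]
  have h4 : (Pz v).card = Nat.primeCounting v := by
    rw [Nat.primeCounting, Nat.primeCounting', Nat.count_eq_card_filter_range]
    congr 1
    ext p
    rw [mem_Pz, mem_filter, mem_range]
    constructor
    · rintro ⟨h1, h2⟩; exact ⟨by omega, h1⟩
    · rintro ⟨h1, h2⟩; exact ⟨h2, by omega⟩
  rw [h4]

/-- Chebyshev's bound for the number of primes -/
theorem pi_bound : ∃ C : ℝ, 0 < C ∧ ∀ v : ℕ, 2 ≤ v → (Nat.primeCounting v : ℝ) ≤ C * (v / Real.log v) := by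
  refine ⟨10, by norm_num, fun v hv => ?_⟩
  have hL1 : (1 : ℝ) < v := by exact_mod_cast (by omega : 1 < v)
  have h := Chebyshev.pi_le_log4_mul_div (x := (v : ℝ)) hL1
  rw [Nat.floor_natCast] at h
  refine h.trans ?_
  have hl : 0 < Real.log v := Real.log_pos hL1
  have h4 : Real.log 4 ≤ 2 := by
    have : Real.log 4 = 2 * Real.log 2 := by
      rw [show (4 : ℝ) = 2 ^ 2 by norm_num, Real.log_pow]; norm_num
    have := Real.log_two_lt_d9
    linarith
  have hs : Real.log (Real.sqrt v) = Real.log v / 2 := Real.log_sqrt (by positivity)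
  rw [hs]
  have hsq : Real.sqrt v * Real.sqrt v = v := Real.mul_self_sqrt (by positivity)
  have hs0 : 0 < Real.sqrt v := Real.sqrt_pos.2 (by linarith)
  have h5 : Real.log v ≤ 2 * Real.sqrt v := by
    have := Real.log_le_sub_one_of_pos hs0
    rw [hs] at this; linarith
  have h6 : Real.sqrt v ≤ 2 * v / Real.log v := by
    rw [le_div_iff₀ hl]
    nlinarith
  have h7 : Real.log 4 * v / (Real.log v / 2) ≤ 4 * v / Real.log v := by
    rw [div_div_eq_mul_div]
    apply div_le_div_of_nonneg_right _ hl.le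
    nlinarith
  have h8 : 10 * ((v : ℝ) / Real.log v) = 4 * v / Real.log v + 6 * v / Real.log v := by ring
  have h9 : 2 * (v : ℝ) / Real.log v ≤ 6 * v / Real.log v := by
    apply div_le_div_of_nonneg_right _ hl.le
    nlinarith
  linarith

/-- the bound for `TT` -/
theorem TT_bound : ∃ C : ℝ, 0 < C ∧ ∀ (η : ℝ) (v t : ℕ), 0 ≤ η → η ≤ 1 / 4 → 2 ≤ v → 1 ≤ t → ∀ s : ℝ, (t : ℝ) ≤ s →
    TT v t ≤ C * (s ^ (1 - η) * (v : ℝ) ^ η) := by
  obtain ⟨C1, hC1, hpi⟩ := pi_bound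
  refine ⟨max 6 (10 * C1), lt_max_of_lt_left (by norm_num), fun η v t hη0 hη1 hv ht s hts => ?_⟩
  have hv0 : (0 : ℝ) < v := by exact_mod_cast (by omega : 0 < v)
  have ht1 : (1 : ℝ) ≤ t := by exact_mod_cast ht
  have ht0 : (0 : ℝ) < t := by linarith
  have hst : (t : ℝ) ^ (1 - η) * (v : ℝ) ^ η ≤ s ^ (1 - η) * (v : ℝ) ^ η := by
    apply mul_le_mul_of_nonneg_right _ (by positivity)
    exact Real.rpow_le_rpow ht0.le hts (by linarith)
  refine le_trans ?_ (mul_le_mul_of_nonneg_left hst (by positivity))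
  rcases Nat.lt_or_ge v t with h | h
  · -- t > v
    have h1 := TT_le_log v t ht
    have hvt : (v : ℝ) < t := by exact_mod_cast h
    have hlv : 0 < Real.log v := Real.log_pos (by exact_mod_cast (by omega : 1 < v))
    have hlt : 0 ≤ Real.log t := Real.log_nonneg ht1
    refine h1.trans ((mul_le_mul_of_nonneg_right (hpi v hv) hlt).trans ?_)
    -- C1 v / log v log t ≤ 10 C1 t^(1-η) v^η
    have hl2 : (1 : ℝ) / 2 ≤ Real.log v := by
      have h2 : Real.log 2 ≤ Real.log v := Real.log_le_log (by norm_num) (by exact_mod_cast hv)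
      have := Real.log_two_gt_d9
      linarith
    have h2 : Real.log t / Real.log v ≤ 5 * ((t : ℝ) / v) ^ ((1 : ℝ) / 2) := by
      have h3 : Real.log t = Real.log v + Real.log (t / v) := by
        rw [Real.log_div ht0.ne' hv0.ne']; ring
      have h4 : Real.log (t / v) ≤ 2 * ((t : ℝ) / v) ^ ((1 : ℝ) / 2) := by
        have h5 : 0 < (t : ℝ) / v := by positivity
        rw [← Real.sqrt_eq_rpow]
        have h6 : 0 < Real.sqrt ((t : ℝ) / v) := Real.sqrt_pos.2 h5
        have h7 := Real.log_le_sub_one_of_pos h6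
        rw [Real.log_sqrt h5.le] at h7
        linarith
      have h8 : (1 : ℝ) ≤ ((t : ℝ) / v) ^ ((1 : ℝ) / 2) := by
        apply Real.one_le_rpow _ (by norm_num)
        rw [le_div_iff₀ hv0]; linarith
      rw [div_le_iff₀ hlv, h3]
      nlinarith
    have h9 : ((t : ℝ) / v) ^ ((1 : ℝ) / 2) ≤ ((t : ℝ) / v) ^ (1 - η) := by
      apply Real.rpow_le_rpow_of_exponent_le _ (by linarith)
      rw [le_div_iff₀ hv0]; linarith
    have h10 : (v : ℝ) * ((t : ℝ) / v) ^ (1 - η) = (t : ℝ) ^ (1 - η) * (v : ℝ) ^ η := by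
      rw [Real.div_rpow ht0.le hv0.le]
      have : (v : ℝ) = (v : ℝ) ^ (1 - η) * (v : ℝ) ^ η := by
        rw [← Real.rpow_add hv0]; simp
      have hne : (v : ℝ) ^ (1 - η) ≠ 0 := (Real.rpow_pos_of_pos hv0 _).ne'
      calc (v : ℝ) * ((t : ℝ) ^ (1 - η) / (v : ℝ) ^ (1 - η))
          = ((v : ℝ) ^ (1 - η) * (v : ℝ) ^ η) * ((t : ℝ) ^ (1 - η) / (v : ℝ) ^ (1 - η)) := by rw [← this]
        _ = _ := by field_simp
    calc C1 * ((v : ℝ) / Real.log v) * Real.log t = C1 * (v * (Real.log t / Real.log v)) := by ring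
      _ ≤ C1 * (v * (5 * ((t : ℝ) / v) ^ (1 - η))) := by
          apply mul_le_mul_of_nonneg_left _ hC1.le
          apply mul_le_mul_of_nonneg_left _ hv0.le
          linarith
      _ = 5 * C1 * (v * ((t : ℝ) / v) ^ (1 - η)) := by ring
      _ = 5 * C1 * ((t : ℝ) ^ (1 - η) * (v : ℝ) ^ η) := by rw [h10]
      _ ≤ _ := by
          apply mul_le_mul_of_nonneg_right _ (by positivity)
          exact le_trans (by linarith) (le_max_right _ _)
  · -- t ≤ v
    have h1 := TT_le_psi v t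
    have h2 := Chebyshev.psi_le_const_mul_self (x := (t : ℝ)) ht0.le
    have hvt : (t : ℝ) ≤ v := by exact_mod_cast h
    have h3 : (t : ℝ) ≤ (t : ℝ) ^ (1 - η) * (v : ℝ) ^ η := by
      calc (t : ℝ) = (t : ℝ) ^ (1 - η) * (t : ℝ) ^ η := by
            rw [← Real.rpow_add ht0]; simp
        _ ≤ _ := by
            apply mul_le_mul_of_nonneg_left _ (by positivity)
            exact Real.rpow_le_rpow ht0.le hvt hη0
    have h4 : Real.log 4 + 4 ≤ 6 := by
      have : Real.log 4 = 2 * Real.log 2 := by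
        rw [show (4 : ℝ) = 2 ^ 2 by norm_num, Real.log_pow]; norm_num
      have := Real.log_two_lt_d9
      linarith
    have hlog4 : 0 ≤ Real.log 4 := Real.log_nonneg (by norm_num)
    calc TT v t ≤ (Real.log 4 + 4) * t := h1.trans h2
      _ ≤ 6 * t := mul_le_mul_of_nonneg_right h4 ht0.le
      _ ≤ max 6 (10 * C1) * t := mul_le_mul_of_nonneg_right (le_max_left _ _) ht0.le
      _ ≤ _ := mul_le_mul_of_nonneg_left h3 (by positivity)

theorem sum_log (v L : ℕ) : ∑ n ∈ Sm v L, Real.log n ≤ ∑ m ∈ Sm v L, TT v (L / m) := by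
  set S := Sm v L with hS
  have h1 : ∀ n ∈ S, Real.log n = ∑ d ∈ S, if d ∣ n then vonMangoldt d else 0 := by
    intro n hn
    obtain ⟨hn1, hn2⟩ := mem_Sm.1 hn
    rw [← sum_filter, ← vonMangoldt_sum]
    apply sum_congr _ (fun _ _ => rfl)
    ext d
    rw [Nat.mem_divisors, mem_filter, hS, mem_Sm]
    constructor
    · rintro ⟨h1, h2⟩
      have h3 := Nat.le_of_dvd (by omega) h1
      have h4 := Nat.pos_of_dvd_of_pos h1 (by omega)
      exact ⟨⟨⟨h4, by omega⟩, fun p hp hpd => hn2 p hp (hpd.trans h1)⟩, h1⟩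
    · rintro ⟨_, h2⟩
      exact ⟨h2, by omega⟩
  rw [sum_congr rfl h1, sum_comm]
  have h2 : ∀ d ∈ S, (∑ n ∈ S, if d ∣ n then vonMangoldt d else 0) ≤
      ∑ m ∈ S, if m * d ≤ L then vonMangoldt d else 0 := by
    intro d hd
    obtain ⟨hd1, hd2⟩ := mem_Sm.1 hd
    rw [← sum_filter, ← sum_filter, sum_const, sum_const, nsmul_eq_mul, nsmul_eq_mul]
    apply mul_le_mul_of_nonneg_right _ vonMangoldt_nonneg
    apply Nat.cast_le.2
    apply card_le_card_of_injOn (fun n => n / d)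
    · intro n hn
      rw [Finset.mem_coe, mem_filter] at hn
      obtain ⟨hn1, hn2⟩ := hn
      obtain ⟨hn3, hn4⟩ := mem_Sm.1 hn1
      rw [Finset.mem_coe, mem_filter]
      have h3 : n / d * d = n := Nat.div_mul_cancel hn2
      refine ⟨?_, by beta_reduce; omega⟩
      rw [hS, mem_Sm]
      refine ⟨⟨Nat.div_pos (Nat.le_of_dvd (by omega) hn2) (by omega), (Nat.div_le_self n d).trans hn3.2⟩, ?_⟩
      intro p hp hpd
      exact hn4 p hp (hpd.trans (Nat.div_dvd_of_dvd hn2))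
    · intro n hn n' hn' he
      rw [Finset.mem_coe, mem_filter] at hn hn'
      have h3 : n / d * d = n := Nat.div_mul_cancel hn.2
      have h4 : n' / d * d = n' := Nat.div_mul_cancel hn'.2
      rw [← h3, ← h4]
      have : n / d = n' / d := he
      rw [this]
  refine (sum_le_sum h2).trans ?_
  rw [sum_comm]
  apply sum_le_sum
  intro m hm
  obtain ⟨hm1, hm2⟩ := mem_Sm.1 hm
  rw [← sum_filter]
  unfold TT
  apply sum_le_sum_of_subset_of_nonneg
  · intro d hd
    rw [mem_filter] at hd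
    obtain ⟨hd1, hd2⟩ := mem_Sm.1 hd.1
    rw [mem_Sm]
    refine ⟨⟨hd1.1, ?_⟩, hd2⟩
    rw [Nat.le_div_iff_mul_le (by omega), mul_comm]
    exact hd.2
  · intro d _ _
    exact vonMangoldt_nonneg

/-- **Smooth integers**, without the loss of a logarithm. -/
theorem smooth_bound : ∃ C : ℝ, 1 ≤ C ∧ ∀ (η : ℝ) (v L : ℕ), 0 ≤ η → η ≤ 1 / 4 → 2 ≤ v → 2 ≤ L →
    ((Sm v L).card : ℝ) ≤ √(L : ℝ) + C / Real.log L * ((L : ℝ) ^ (1 - η) * (v : ℝ) ^ η *
      (Real.log v * Real.exp (4 * η * (v : ℝ) ^ η * (Real.log v + C)))) := by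
  obtain ⟨C1, hC1, h1⟩ := TT_bound
  obtain ⟨C2, hC2, h2⟩ := euler_le
  refine ⟨max 1 (max C2 (2 * C1 * C2)), le_max_left _ _, fun η v L hη0 hη1 hv hL => ?_⟩
  have hL0 : (0 : ℝ) < L := by exact_mod_cast (by omega : 0 < L)
  have hlL : 0 < Real.log L := Real.log_pos (by exact_mod_cast (by omega : 1 < L))
  have hv0 : (0 : ℝ) < v := by exact_mod_cast (by omega : 0 < v)
  have hlv : 0 < Real.log v := Real.log_pos (by exact_mod_cast (by omega : 1 < v))
  obtain ⟨E, hE⟩ : ∃ E : ℝ, E = Real.log v * Real.exp (4 * η * (v : ℝ) ^ η * (Real.log v + C2)) := ⟨_, rfl⟩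
  have hE0 : 0 < E := by rw [hE]; positivity
  have h3 := smooth_tsum (σ := 1 - η) (by linarith) v L
  have h4 := h3.trans (h2 η v hη0 hη1 hv)
  have h5 : ∑ n ∈ Sm v L, (n : ℝ) ^ (-(1 - η)) ≤ C2 * E := by
    rw [hE, ← mul_assoc]
    exact h4
  have h6 : ∑ n ∈ Sm v L, Real.log n ≤ C1 * ((L : ℝ) ^ (1 - η) * (v : ℝ) ^ η) * (C2 * E) := by
    refine (sum_log v L).trans ?_
    calc ∑ m ∈ Sm v L, TT v (L / m) ≤
        ∑ m ∈ Sm v L, C1 * ((L : ℝ) ^ (1 - η) * (v : ℝ) ^ η) * (m : ℝ) ^ (-(1 - η)) := by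
          apply sum_le_sum
          intro m hm
          obtain ⟨hm1, hm2⟩ := mem_Sm.1 hm
          have hm0 : (0 : ℝ) < m := by exact_mod_cast (by omega : 0 < m)
          have h7 := h1 η v (L / m) hη0 hη1 hv (Nat.div_pos hm1.2 (by omega)) (L / m) Nat.cast_div_le
          refine h7.trans (le_of_eq ?_)
          rw [Real.div_rpow hL0.le hm0.le, Real.rpow_neg hm0.le]
          ring
      _ = C1 * ((L : ℝ) ^ (1 - η) * (v : ℝ) ^ η) * ∑ m ∈ Sm v L, (m : ℝ) ^ (-(1 - η)) := by rw [mul_sum]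
      _ ≤ _ := mul_le_mul_of_nonneg_left h5 (by positivity)
  -- split
  have h8 : ((Sm v L).card : ℝ) ≤ √(L : ℝ) + (((Sm v L).filter (fun n : ℕ => √(L : ℝ) < (n : ℝ))).card : ℝ) := by
    have h9 := card_filter_add_card_filter_not (s := Sm v L) (fun n : ℕ => √(L : ℝ) < n)
    have h10 : (((Sm v L).filter (fun n : ℕ => ¬ √(L : ℝ) < (n : ℝ))).card : ℝ) ≤ √(L : ℝ) := by
      have h11 : (Sm v L).filter (fun n : ℕ => ¬ √(L : ℝ) < (n : ℝ)) ⊆ Icc 1 ⌊√(L : ℝ)⌋₊ := by
        intro n hn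
        rw [mem_filter] at hn
        obtain ⟨hn1, hn2⟩ := mem_Sm.1 hn.1
        rw [mem_Icc]
        exact ⟨hn1.1, Nat.le_floor (not_lt.1 hn.2)⟩
      have h12 := card_le_card h11
      rw [Nat.card_Icc, Nat.add_sub_cancel] at h12
      have h13 : (((Sm v L).filter (fun n : ℕ => ¬ √(L : ℝ) < (n : ℝ))).card : ℝ) ≤ (⌊√(L : ℝ)⌋₊ : ℝ) := by
        exact_mod_cast h12
      exact h13.trans (Nat.floor_le (Real.sqrt_nonneg _))
    have h14 : ((Sm v L).card : ℝ) = (((Sm v L).filter (fun n : ℕ => √(L : ℝ) < (n : ℝ))).card : ℝ) +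
        (((Sm v L).filter (fun n : ℕ => ¬ √(L : ℝ) < (n : ℝ))).card : ℝ) := by
      rw [← h9]
      push_cast
      ring
    linarith
  have h15 : (((Sm v L).filter (fun n : ℕ => √(L : ℝ) < (n : ℝ))).card : ℝ) * (Real.log L / 2) ≤
      ∑ n ∈ Sm v L, Real.log n := by
    calc (((Sm v L).filter (fun n : ℕ => √(L : ℝ) < (n : ℝ))).card : ℝ) * (Real.log L / 2)
        = ∑ n ∈ (Sm v L).filter (fun n : ℕ => √(L : ℝ) < (n : ℝ)), Real.log L / 2 := by
          rw [sum_const, nsmul_eq_mul]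
      _ ≤ ∑ n ∈ (Sm v L).filter (fun n : ℕ => √(L : ℝ) < (n : ℝ)), Real.log n := by
          apply sum_le_sum
          intro n hn
          rw [← Real.log_sqrt hL0.le]
          exact Real.log_le_log (Real.sqrt_pos.2 hL0) (mem_filter.1 hn).2.le
      _ ≤ _ := by
          apply sum_le_sum_of_subset_of_nonneg (filter_subset _ _)
          intro n hn _
          exact Real.log_nonneg (by exact_mod_cast (mem_Sm.1 hn).1.1)
  obtain ⟨F, hF⟩ : ∃ F : ℝ, F = (((Sm v L).filter (fun n : ℕ => √(L : ℝ) < (n : ℝ))).card : ℝ) := ⟨_, rfl⟩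
  rw [← hF] at h8 h15
  obtain ⟨C, hC⟩ : ∃ C : ℝ, C = max 1 (max C2 (2 * C1 * C2)) := ⟨_, rfl⟩
  rw [← hC]
  have hCa : C2 ≤ C := by rw [hC]; exact (le_max_left _ _).trans (le_max_right _ _)
  have hCb : 2 * C1 * C2 ≤ C := by rw [hC]; exact (le_max_right _ _).trans (le_max_right _ _)
  have hC0 : 0 < C := lt_of_lt_of_le hC2 hCa
  have h16 : F ≤ C / Real.log L * ((L : ℝ) ^ (1 - η) * (v : ℝ) ^ η * E) := by
    rw [div_mul_eq_mul_div, le_div_iff₀ hlL]
    have h17 : F * Real.log L ≤ 2 * (C1 * ((L : ℝ) ^ (1 - η) * (v : ℝ) ^ η) * (C2 * E)) := by linarith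
    refine h17.trans ?_
    have h18 : 0 ≤ (L : ℝ) ^ (1 - η) * (v : ℝ) ^ η * E := by positivity
    calc 2 * (C1 * ((L : ℝ) ^ (1 - η) * (v : ℝ) ^ η) * (C2 * E))
        = (2 * C1 * C2) * ((L : ℝ) ^ (1 - η) * (v : ℝ) ^ η * E) := by ring
      _ ≤ _ := mul_le_mul_of_nonneg_right hCb h18
  have h19 : E ≤ Real.log v * Real.exp (4 * η * (v : ℝ) ^ η * (Real.log v + C)) := by
    rw [hE]
    apply mul_le_mul_of_nonneg_left _ hlv.le
    apply Real.exp_le_exp.2
    apply mul_le_mul_of_nonneg_left _ (by positivity)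
    linarith
  calc ((Sm v L).card : ℝ) ≤ √(L : ℝ) + F := h8
    _ ≤ √(L : ℝ) + C / Real.log L * ((L : ℝ) ^ (1 - η) * (v : ℝ) ^ η * E) := by linarith
    _ ≤ _ := by
      gcongr

end Pool.Agent.V5helper42.LR
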