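import Pool.Agent.V5helper42.LR.A
import Pool.Agent.H256R2.SC.R

/-! The covering: zero classes for the primes in `(v, z]`, greedy classes for the primes up to `v`. -/

set_option autoImplicit false

namespace Pool.Agent.V5helper42.LR

open Finset Pool.Agent.H318R2.Cr Pool.Agent.H398R2.RK

open scoped Classical

/-- the positions which are not covered -/
noncomputable def surv (H z : ℕ) (a : ℕ → ℕ) : Finset ℕ :=
  (Icc 1 H).filter (fun s => ∀ p : ℕ, p.Prime → p ≤ z → ¬ s ≡ a p [MOD p])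

theorem R_card (H v z : ℕ) : (((Icc 1 H).filter (fun s => ∀ p : ℕ, p.Prime → v < p → p ≤ z → ¬ p ∣ s)).card : ℝ) ≤
    (Sm v H).card + H * ∑ q ∈ (Ioc z H).filter Nat.Prime, (1 : ℝ) / q := by
  have h1 : (Icc 1 H).filter (fun s => ∀ p : ℕ, p.Prime → v < p → p ≤ z → ¬ p ∣ s) ⊆
      Sm v H ∪ ((Ioc z H).filter Nat.Prime).biUnion (fun q => (Ioc 0 H).filter (fun s => q ∣ s)) := by
    intro s hs
    rw [mem_filter, mem_Icc] at hs
    rw [mem_union, mem_Sm]
    by_cases h : ∀ p : ℕ, p.Prime → p ∣ s → p ≤ v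
    · exact Or.inl ⟨hs.1, h⟩
    · right
      push Not at h
      obtain ⟨p, hp, hps, hpv⟩ := h
      rw [mem_biUnion]
      refine ⟨p, ?_, ?_⟩
      · rw [mem_filter, mem_Ioc]
        have h3 := Nat.le_of_dvd (by omega) hps
        refine ⟨⟨?_, by omega⟩, hp⟩
        by_contra hcon
        exact hs.2 p hp hpv (by omega) hps
      · rw [mem_filter, mem_Ioc]
        exact ⟨by omega, hps⟩
  have h2 := card_le_card h1
  have h3 := h2.trans ((card_union_le _ _).trans (Nat.add_le_add_left card_biUnion_le _))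
  have h4 : (((Icc 1 H).filter (fun s => ∀ p : ℕ, p.Prime → v < p → p ≤ z → ¬ p ∣ s)).card : ℝ) ≤
      (Sm v H).card + ∑ q ∈ (Ioc z H).filter Nat.Prime, (((Ioc 0 H).filter (fun s => q ∣ s)).card : ℝ) := by
    exact_mod_cast h3
  refine h4.trans ?_
  rw [mul_sum]
  gcongr with q hq
  rw [Nat.Ioc_filter_dvd_card_eq_div, mul_one_div]
  exact Nat.cast_div_le

theorem cover (H v z : ℕ) (hvz : v ≤ z) : ∃ a : ℕ → ℕ, ((surv H z a).card : ℝ) ≤
    V v * ((Sm v H).card + H * ∑ q ∈ (Ioc z H).filter Nat.Prime, (1 : ℝ) / q) := by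
  obtain ⟨b, -, hb⟩ := Pool.Agent.H256R2.SC.greedy_all (Pz v) (fun p hp => (mem_Pz.1 hp).1)
    ((Icc 1 H).filter (fun s => ∀ p : ℕ, p.Prime → v < p → p ≤ z → ¬ p ∣ s))
  refine ⟨fun p => if p ≤ v then b p else 0, ?_⟩
  have h1 : surv H z (fun p => if p ≤ v then b p else 0) ⊆
      ((Icc 1 H).filter (fun s => ∀ p : ℕ, p.Prime → v < p → p ≤ z → ¬ p ∣ s)).filter
        (fun k => ∀ p ∈ Pz v, ¬ k ≡ b p [MOD p]) := by
    intro s hs
    unfold surv at hs
    rw [mem_filter] at hs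
    rw [mem_filter, mem_filter]
    refine ⟨⟨hs.1, fun p hp hvp hpz hps => ?_⟩, fun p hp => ?_⟩
    · have := hs.2 p hp hpz
      beta_reduce at this
      rw [if_neg (by omega)] at this
      exact this ((Nat.modEq_zero_iff_dvd).2 hps)
    · obtain ⟨hp1, hp2⟩ := mem_Pz.1 hp
      have := hs.2 p hp1 (by omega)
      beta_reduce at this
      rwa [if_pos hp2] at this
  have h2 : ((surv H z (fun p => if p ≤ v then b p else 0)).card : ℝ) ≤
      ((((Icc 1 H).filter (fun s => ∀ p : ℕ, p.Prime → v < p → p ≤ z → ¬ p ∣ s)).filter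
        (fun k => ∀ p ∈ Pz v, ¬ k ≡ b p [MOD p])).card : ℝ) := by
    exact_mod_cast card_le_card h1
  refine h2.trans (hb.trans ?_)
  rw [mul_comm]
  apply mul_le_mul_of_nonneg_left (R_card H v z) (V_pos v).le

/-- the primes between `z` and `H` -/
theorem sum_inv : ∃ C : ℝ, 0 < C ∧ ∀ z H : ℕ, 2 ≤ z → z ≤ H →
    ∑ q ∈ (Ioc z H).filter Nat.Prime, (1 : ℝ) / q ≤ (Real.log H - Real.log z + C) / Real.log z := by
  obtain ⟨C, hM⟩ := Helper923.HMertens.mertens_log
  have hC : 0 ≤ C := (abs_nonneg _).trans (hM 1 le_rfl)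
  refine ⟨2 * C + 1, by linarith, fun z H hz hzH => ?_⟩
  have hlz : 0 < Real.log z := Real.log_pos (by exact_mod_cast (by omega : 1 < z))
  rw [le_div_iff₀ hlz, sum_mul]
  have h1 : ∀ q ∈ (Ioc z H).filter Nat.Prime, 1 / (q : ℝ) * Real.log z ≤ Real.log q / q := by
    intro q hq
    rw [mem_filter, mem_Ioc] at hq
    have hq0 : (0 : ℝ) < q := by exact_mod_cast hq.2.pos
    rw [div_mul_eq_mul_div, one_mul]
    apply div_le_div_of_nonneg_right _ hq0.le
    exact Real.log_le_log (by exact_mod_cast (by omega : 0 < z)) (by exact_mod_cast hq.1.1.le)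
  refine (sum_le_sum h1).trans ?_
  have h2 := (abs_le.1 (hM z (by omega))).1
  have h3 := (abs_le.1 (hM H (by omega))).2
  have h4 : (Icc 1 H).filter Nat.Prime = (Icc 1 z).filter Nat.Prime ∪ (Ioc z H).filter Nat.Prime := by
    ext q
    simp only [mem_filter, mem_Icc, mem_union, mem_Ioc]
    constructor
    · rintro ⟨⟨h1, h2⟩, h3⟩
      rcases Nat.lt_or_ge z q with h | h
      · exact Or.inr ⟨⟨h, h2⟩, h3⟩
      · exact Or.inl ⟨⟨h1, h⟩, h3⟩
    · rintro (⟨⟨h1, h2⟩, h3⟩ | ⟨⟨h1, h2⟩, h3⟩)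
      · exact ⟨⟨h1, by omega⟩, h3⟩
      · exact ⟨⟨by omega, h2⟩, h3⟩
  have h5 : Disjoint ((Icc 1 z).filter Nat.Prime) ((Ioc z H).filter Nat.Prime) := by
    rw [disjoint_left]
    intro q hq hq'
    simp only [mem_filter, mem_Icc, mem_Ioc] at hq hq'
    omega
  rw [h4, sum_union h5] at h3
  linarith

end Pool.Agent.V5helper42.LR
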