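import Pool.Agent.V5helper42.LR.B
import Pool.Agent.H373R2.T7.Fund

/-! From the covering to many integers: the sieve in the progression. -/

set_option autoImplicit false

namespace Pool.Agent.V5helper42.LR

open Finset Pool.Agent.H318R2.Cr Pool.Agent.H398R2.RK

open scoped Classical

/-- the sieve condition for `B + W m` outside the prime factors of `W` -/
def QW (W B p m : ℕ) : Prop := ¬ p ∣ W ∧ p ∣ B + W * m

theorem one_root (W B p : ℕ) (hp : p.Prime) (hW : ¬ p ∣ W) :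
    ((range p).filter (fun r => p ∣ B + W * r)).card ≤ 1 := by
  rw [card_le_one]
  intro r hr r' hr'
  rw [mem_filter, mem_range] at hr hr'
  have h1 : B + W * r ≡ B + W * r' [MOD p] :=
    ((Nat.modEq_zero_iff_dvd).2 hr.2).trans ((Nat.modEq_zero_iff_dvd).2 hr'.2).symm
  have h2 : W * r ≡ W * r' [MOD p] := Nat.ModEq.add_left_cancel' B h1
  have h3 : r ≡ r' [MOD p] := Nat.ModEq.cancel_left_of_coprime ((Nat.Prime.coprime_iff_not_dvd hp).2 hW) h2
  exact Nat.ModEq.eq_of_lt_of_lt h3 hr.1 hr'.1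

theorem exists_root (W B p : ℕ) (hp : p.Prime) (hW : ¬ p ∣ W) : ∃ r < p, p ∣ B + W * r := by
  have hcop : Nat.Coprime W p := ((Nat.Prime.coprime_iff_not_dvd hp).2 hW).symm
  obtain ⟨c, hc⟩ := Nat.exists_mul_mod_eq_one_of_coprime hcop hp.one_lt
  refine ⟨(c * (p - B % p)) % p, Nat.mod_lt _ hp.pos, ?_⟩
  rw [← Nat.modEq_zero_iff_dvd]
  have h1 : W * ((c * (p - B % p)) % p) ≡ W * (c * (p - B % p)) [MOD p] :=
    (Nat.mod_modEq _ _).mul_left W
  have h2 : W * (c * (p - B % p)) ≡ 1 * (p - B % p) [MOD p] := by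
    rw [← mul_assoc]
    apply Nat.ModEq.mul_right
    unfold Nat.ModEq
    rw [hc.2, Nat.mod_eq_of_lt hp.one_lt]
  have h3 := (h1.trans h2).add_left B
  refine h3.trans ?_
  rw [one_mul, Nat.modEq_zero_iff_dvd]
  have h4 : B % p ≤ p := (Nat.mod_lt B hp.pos).le
  have h5 : B + (p - B % p) = (B - B % p) + p := by
    have := Nat.mod_le B p
    omega
  rw [h5]
  exact (Nat.dvd_sub_mod B).add (Nat.dvd_refl p)

theorem nuB_QW (W B p : ℕ) (hp : p.Prime) :
    Pool.Agent.H373R2.T7.nuB (QW W B) p = if p ∣ W then 0 else 1 := by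
  unfold Pool.Agent.H373R2.T7.nuB
  split_ifs with h
  · rw [card_eq_zero, filter_eq_empty_iff]
    intro r _ hr
    exact hr.1 h
  · apply le_antisymm
    · refine le_trans (card_le_card ?_) (one_root W B p hp h)
      intro r hr
      rw [mem_filter] at hr ⊢
      exact ⟨hr.1, hr.2.2⟩
    · rw [Nat.one_le_iff_ne_zero, ← Nat.pos_iff_ne_zero, card_pos]
      obtain ⟨r, hr1, hr2⟩ := exists_root W B p hp h
      exact ⟨r, mem_filter.2 ⟨mem_range.2 hr1, h, hr2⟩⟩

theorem perB_QW (W B : ℕ) : Pool.Agent.H373R2.T7.PerB (QW W B) 1 := by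
  constructor
  · intro p n
    have h1 : W * n ≡ W * (n % p) [MOD p] := (Nat.mod_modEq n p).symm.mul_left W
    unfold QW
    rw [Nat.ModEq.dvd_iff (h1.add_left B) (Nat.dvd_refl p)]
  · intro p hp
    rw [nuB_QW W B p hp]
    split_ifs <;> norm_num

theorem pz_eq (w : ℕ) : Pool.Agent.H373R2.T7.pz w = Pz w := by
  unfold Pool.Agent.H373R2.T7.pz Pz
  congr 1

theorem dvd_W (z p : ℕ) (hp : p.Prime) : p ∣ ∏ q ∈ Pz z, q ↔ p ≤ z := by
  constructor
  · intro h
    obtain ⟨q, hq, hpq⟩ := (Nat.Prime.prime hp).exists_mem_finset_dvd h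
    have h1 := (Nat.prime_dvd_prime_iff_eq hp (mem_Pz.1 hq).1).1 hpq
    rw [h1]
    exact (mem_Pz.1 hq).2
  · intro h
    exact dvd_prod_of_mem _ (mem_Pz.2 ⟨hp, h⟩)

theorem prod_eq (z w B : ℕ) (hzw : z ≤ w) :
    ∏ p ∈ Pool.Agent.H373R2.T7.pz w, (1 - (Pool.Agent.H373R2.T7.nuB (QW (∏ q ∈ Pz z, q) B) p : ℝ) / p) = V w / V z := by
  rw [eq_div_iff (V_pos z).ne', pz_eq]
  unfold V
  have h1 : Pz w = Pz z ∪ (Pz w \ Pz z) := by
    rw [union_sdiff_of_subset]
    intro p hp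
    obtain ⟨h1, h2⟩ := mem_Pz.1 hp
    exact mem_Pz.2 ⟨h1, by omega⟩
  rw [h1, prod_union disjoint_sdiff, prod_union disjoint_sdiff]
  have h2 : ∏ p ∈ Pz z, (1 - (Pool.Agent.H373R2.T7.nuB (QW (∏ q ∈ Pz z, q) B) p : ℝ) / p) = 1 := by
    apply prod_eq_one
    intro p hp
    rw [nuB_QW _ _ p (mem_Pz.1 hp).1, if_pos ((dvd_W z p (mem_Pz.1 hp).1).2 (mem_Pz.1 hp).2)]
    simp
  have h3 : ∏ p ∈ Pz w \ Pz z, (1 - (Pool.Agent.H373R2.T7.nuB (QW (∏ q ∈ Pz z, q) B) p : ℝ) / p) =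
      ∏ p ∈ Pz w \ Pz z, (1 - 1 / (p : ℝ)) := by
    apply prod_congr rfl
    intro p hp
    rw [mem_sdiff] at hp
    have hpp := (mem_Pz.1 hp.1).1
    rw [nuB_QW _ _ p hpp, if_neg (fun h => hp.2 (mem_Pz.2 ⟨hpp, (dvd_W z p hpp).1 h⟩)), Nat.cast_one]
  rw [h2, h3]
  ring

/-- the integers `n` such that all of `n + 1, …, n + H` have a small prime factor -/
noncomputable def runs (H w X Y : ℕ) : Finset ℕ :=
  (Ioc X (X + Y)).filter (fun n => ∀ s ∈ Icc 1 H, ∃ p : ℕ, p.Prime ∧ p ≤ w ∧ p ∣ n + s ∧ p < n + s)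

theorem count : ∃ K x0 : ℕ, 1 ≤ K ∧ ∀ (H z w X Y M : ℕ) (a : ℕ → ℕ), z ≤ w → x0 ≤ w → w ^ K ≤ M →
    (∏ p ∈ Pz z, p) * (M + 1) ≤ Y →
    (M : ℝ) - (surv H z a).card * (3 / 2 * (M * (V w / V z)) + √(M : ℝ)) - w ≤ (runs H w X Y).card := by
  obtain ⟨K, x0, hK, hf⟩ := Pool.Agent.H373R2.T7.sys_fund 1 le_rfl (1 / 2) (by norm_num)
  refine ⟨K, x0, hK, fun H z w X Y M a hzw hw hwM hY => ?_⟩
  obtain ⟨W, hW⟩ : ∃ W : ℕ, W = ∏ p ∈ Pz z, p := ⟨_, rfl⟩
  rw [← hW] at hY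
  have hW0 : 0 < W := by
    rw [hW]
    exact Finset.prod_pos fun p hp => (mem_Pz.1 hp).1.pos
  obtain ⟨n0, hn0⟩ := Nat.chineseRemainderOfFinset (fun p => p - a p % p) (fun p => p) (Pz z)
    (fun p hp => (mem_Pz.1 hp).1.ne_zero)
    (fun p hp q hq hpq => (Nat.coprime_primes (mem_Pz.1 (by simpa using hp)).1
      (mem_Pz.1 (by simpa using hq)).1).2 hpq)
  obtain ⟨t, ht⟩ : ∃ t, t = (n0 + (W - 1) * (X + 1)) % W := ⟨_, rfl⟩
  have htW : t < W := by rw [ht]; exact Nat.mod_lt _ hW0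
  have hmod : X + 1 + t ≡ n0 [MOD W] := by
    have h1 : t ≡ n0 + (W - 1) * (X + 1) [MOD W] := by rw [ht]; exact Nat.mod_modEq _ _
    have h2 : X + 1 + t ≡ X + 1 + (n0 + (W - 1) * (X + 1)) [MOD W] := h1.add_left _
    have h3 : X + 1 + (n0 + (W - 1) * (X + 1)) = n0 + W * (X + 1) := by
      have h4 : W * (X + 1) = (W - 1) * (X + 1) + (X + 1) := by
        conv_lhs => rw [show W = (W - 1) + 1 by omega]
        ring
      rw [h4]
      ring
    rw [h3] at h2
    refine h2.trans ?_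
    have h5 : n0 + W * (X + 1) ≡ n0 + 0 [MOD W] :=
      Nat.ModEq.add_left n0 ((Nat.modEq_zero_iff_dvd).2 (Dvd.intro _ rfl))
    rwa [add_zero] at h5
  obtain ⟨A, hA⟩ : ∃ A : ℕ, A = X + 1 + t := ⟨_, rfl⟩
  rw [← hA] at hmod
  -- covered positions
  have hcov : ∀ m s : ℕ, ∀ p : ℕ, p.Prime → p ≤ z → s ≡ a p [MOD p] → p ∣ A + W * m + s := by
    intro m s p hp hpz hs
    have hpW : p ∣ W := by rw [hW]; exact (dvd_W z p hp).2 hpz
    have h1 : A + W * m ≡ n0 + 0 [MOD p] :=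
      ((hmod.of_dvd hpW)).add ((Nat.modEq_zero_iff_dvd).2 (hpW.mul_right m))
    rw [add_zero] at h1
    have h2 := hn0 p (mem_Pz.2 ⟨hp, hpz⟩)
    have h3 : A + W * m + s ≡ (p - a p % p) + a p [MOD p] := (h1.trans h2).add hs
    rw [← Nat.modEq_zero_iff_dvd]
    refine h3.trans ?_
    rw [Nat.modEq_zero_iff_dvd]
    have h5 : p - a p % p + a p = p + (a p - a p % p) := by
      have := Nat.mod_le (a p) p
      have := (Nat.mod_lt (a p) hp.pos).le
      omega
    rw [h5]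
    exact (Nat.dvd_refl p).add (Nat.dvd_sub_mod _)
  -- the bad `m`
  obtain ⟨bad, hbad⟩ : ∃ bad : ℕ → Finset ℕ, bad = fun s => (Icc 1 M).filter
    (fun m => ∀ p ∈ Pool.Agent.H373R2.T7.pz w, ¬ QW W (A + s) p m) := ⟨_, rfl⟩
  have hbc : ∀ s, ((bad s).card : ℝ) ≤ 3 / 2 * (M * (V w / V z)) + √(M : ℝ) := by
    intro s
    have h1 := hf M w hw hwM (QW W (A + s)) (perB_QW W (A + s)) M
    rw [hW, prod_eq z w (A + s) hzw] at h1
    have h2 := (abs_le.1 h1).2
    have h3 : ((bad s).card : ℝ) = ((((Icc 1 M).filter (fun n : ℕ => ∀ p ∈ Pool.Agent.H373R2.T7.pz w,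
      ¬ QW (∏ q ∈ Pz z, q) (A + s) p n)).card : ℕ) : ℝ) := by
      rw [hbad, hW]
    rw [h3]
    linarith
  obtain ⟨G, hG⟩ : ∃ G : Finset ℕ, G = (Icc 1 M).filter (fun m => ∀ s ∈ surv H z a, m ∉ bad s) := ⟨_, rfl⟩
  have hGc : (M : ℝ) - (surv H z a).card * (3 / 2 * (M * (V w / V z)) + √(M : ℝ)) ≤ G.card := by
    have h1 : Icc 1 M ⊆ G ∪ (surv H z a).biUnion bad := by
      intro m hm
      rw [mem_union, mem_biUnion, hG, mem_filter]
      by_cases h : ∀ s ∈ surv H z a, m ∉ bad s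
      · exact Or.inl ⟨hm, h⟩
      · right
        push Not at h
        exact h
    have h2 := card_le_card h1
    rw [Nat.card_Icc, Nat.add_sub_cancel] at h2
    have h3 := h2.trans ((card_union_le _ _).trans (Nat.add_le_add_left card_biUnion_le _))
    have h4 : (M : ℝ) ≤ G.card + ∑ s ∈ surv H z a, ((bad s).card : ℝ) := by exact_mod_cast h3
    have h5 : ∑ s ∈ surv H z a, ((bad s).card : ℝ) ≤
        ∑ _s ∈ surv H z a, (3 / 2 * (M * (V w / V z)) + √(M : ℝ)) := sum_le_sum fun s _ => hbc s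
    rw [sum_const, nsmul_eq_mul] at h5
    linarith
  -- the injection
  have hinj : (G.image (fun m => A + W * m)) ⊆ runs H w X Y ∪ range w := by
    intro n hn
    rw [mem_image] at hn
    obtain ⟨m, hm, rfl⟩ := hn
    rw [hG, mem_filter, mem_Icc] at hm
    rw [mem_union, mem_range]
    rcases Nat.lt_or_ge (A + W * m) w with h | h
    · exact Or.inr h
    · left
      unfold runs
      rw [mem_filter, mem_Ioc]
      refine ⟨⟨by rw [hA]; omega, ?_⟩, ?_⟩
      · have h1 : W * m ≤ W * M := Nat.mul_le_mul_left W hm.1.2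
        have h2 : W * (M + 1) = W * M + W := by ring
        rw [hA]
        omega
      · intro s hs
        rw [mem_Icc] at hs
        by_cases hss : s ∈ surv H z a
        · have h1 := hm.2 s hss
          rw [hbad, mem_filter] at h1
          push Not at h1
          obtain ⟨p, hp, hQ⟩ := h1 (mem_Icc.2 hm.1)
          rw [pz_eq] at hp
          obtain ⟨hpp, hpw⟩ := mem_Pz.1 hp
          refine ⟨p, hpp, hpw, ?_, by omega⟩
          have h2 := hQ.2
          rwa [show A + s + W * m = A + W * m + s by ring] at h2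
        · unfold surv at hss
          rw [mem_filter, mem_Icc] at hss
          push Not at hss
          obtain ⟨p, hpp, hpz, hmodp⟩ := hss hs
          exact ⟨p, hpp, hpz.trans hzw, hcov m s p hpp hpz hmodp, by omega⟩
  have h1 := card_le_card hinj
  rw [card_image_of_injective _ (by
    intro m m' e
    have e1 : W * m = W * m' := by
      have : A + W * m = A + W * m' := e
      omega
    exact Nat.eq_of_mul_eq_mul_left hW0 e1)] at h1
  have h2 := h1.trans (card_union_le _ _)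
  rw [card_range] at h2
  have h3 : (G.card : ℝ) ≤ (runs H w X Y).card + w := by exact_mod_cast h2
  linarith

end Pool.Agent.V5helper42.LR
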