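import Pool.Agent.V5helper42.LR.C

/-! Parameters. -/

set_option autoImplicit false

namespace Pool.Agent.V5helper42.LR

open Finset Pool.Agent.H318R2.Cr Pool.Agent.H398R2.RK

open scoped Classical

theorem log16 : 2.77 < Real.log 16 := by
  have h : Real.log 16 = 4 * Real.log 2 := by
    rw [show (16 : ℝ) = 2 ^ 4 by norm_num, Real.log_pow]; norm_num
  have := Real.log_two_gt_d9
  rw [h]; linarith

/-- facts about `t = log λ`, `u = log log λ` -/
theorem lam_facts (lam : ℝ) (h : 16 ≤ lam) : 2.77 < Real.log lam ∧ 1 ≤ Real.log (Real.log lam) ∧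
    2 ≤ Real.log lam / Real.log (Real.log lam) ∧
    Real.log lam / Real.log (Real.log lam) ≤ Real.log lam ∧
    Real.log (Real.log lam) / 2 ≤ Real.log (Real.log lam / Real.log (Real.log lam)) := by
  obtain ⟨t, ht⟩ : ∃ t : ℝ, t = Real.log lam := ⟨_, rfl⟩
  have h1 : 2.77 < t := by
    rw [ht]
    exact log16.trans_le (Real.log_le_log (by norm_num) h)
  rw [← ht]
  obtain ⟨u, hu⟩ : ∃ u : ℝ, u = Real.log t := ⟨_, rfl⟩
  have ht0 : 0 < t := by linarith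
  have h2 : 1 ≤ u := by
    rw [hu, Real.le_log_iff_exp_le ht0]
    have := Real.exp_one_lt_d9
    linarith
  rw [← hu]
  have hu0 : 0 < u := by linarith
  have hut : u ≤ t / 2 := by
    have h3 : 0 < t / 2 := by linarith
    have h4 := Real.log_le_sub_one_of_pos h3
    rw [Real.log_div ht0.ne' (by norm_num), ← hu] at h4
    have := Real.log_two_lt_d9
    linarith
  refine ⟨h1, h2, ?_, ?_, ?_⟩
  · rw [le_div_iff₀ hu0]; linarith
  · rw [div_le_iff₀ hu0]; nlinarith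
  · rw [Real.log_div ht0.ne' hu0.ne', ← hu]
    have h3 : 0 < u / 2 := by linarith
    have h4 := Real.log_le_sub_one_of_pos h3
    rw [Real.log_div hu0.ne' (by norm_num)] at h4
    have := Real.log_two_lt_d9
    linarith

/-- floors -/
theorem log_floor (x : ℝ) (hx : 2 ≤ x) : 2 ≤ ⌊Real.exp x⌋₊ ∧ Real.log ⌊Real.exp x⌋₊ ≤ x ∧
    x - 1 ≤ Real.log ⌊Real.exp x⌋₊ := by
  have h1 : (3 : ℝ) ≤ Real.exp x := by
    have := Real.add_one_le_exp x
    linarith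
  have h2 : 2 ≤ ⌊Real.exp x⌋₊ := Nat.le_floor (by push_cast; linarith)
  have h3 : (2 : ℝ) ≤ (⌊Real.exp x⌋₊ : ℝ) := by exact_mod_cast h2
  have h4 : (⌊Real.exp x⌋₊ : ℝ) ≤ Real.exp x := Nat.floor_le (Real.exp_pos x).le
  have h5 : Real.exp x < (⌊Real.exp x⌋₊ : ℝ) + 1 := Nat.lt_floor_add_one _
  refine ⟨h2, ?_, ?_⟩
  · calc Real.log ⌊Real.exp x⌋₊ ≤ Real.log (Real.exp x) := Real.log_le_log (by linarith) h4
      _ = x := Real.log_exp x
  · rw [Real.le_log_iff_exp_le (by linarith)]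
    have h6 : Real.exp (x - 1) * Real.exp 1 = Real.exp x := by rw [← Real.exp_add]; ring_nf
    have h7 := Real.exp_one_gt_d9
    have h8 := Real.exp_pos (x - 1)
    nlinarith

/-- **the smooth part** -/
theorem smooth_part : ∃ C : ℝ, 1 ≤ C ∧ ∀ (H : ℕ) (w' ℓ : ℝ), 2 ≤ H → 1024 ≤ w' → ℓ = Real.log H / w' → 2 ≤ ℓ →
    C ≤ ℓ → 2 * Real.log w' ≤ ℓ →
    ((Sm ⌊Real.exp ℓ⌋₊ H).card : ℝ) ≤ √(H : ℝ) + C * H / w' * Real.exp (-(1 / 4 * (w' * Real.log w'))) := by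
  obtain ⟨C, hC, h⟩ := smooth_bound
  refine ⟨C, hC, fun H w' ℓ hH hw hℓ hℓ2 hCℓ hlw => ?_⟩
  have hH0 : (0 : ℝ) < H := by exact_mod_cast (by omega : 0 < H)
  obtain ⟨hh, hhe⟩ : ∃ hh : ℝ, hh = Real.log H := ⟨_, rfl⟩
  have hh0 : 0 < hh := by
    rw [hhe]; exact Real.log_pos (by exact_mod_cast (by omega : 1 < H))
  have hw0 : 0 < w' := by linarith
  have hℓ0 : 0 < ℓ := by linarith
  have hhw : hh = ℓ * w' := by rw [hℓ, hhe]; field_simp
  obtain ⟨b, hb⟩ : ∃ b : ℝ, b = Real.log w' := ⟨_, rfl⟩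
  rw [← hb] at hlw ⊢
  have hb1 : 1 ≤ b := by
    rw [hb, Real.le_log_iff_exp_le hw0]
    have := Real.exp_one_lt_d9
    linarith
  obtain ⟨η, hη⟩ : ∃ η : ℝ, η = 1 / 2 * (b / ℓ) := ⟨_, rfl⟩
  have hη0 : 0 ≤ η := by rw [hη]; positivity
  have hη1 : η ≤ 1 / 4 := by
    rw [hη]
    have : b / ℓ ≤ 1 / 2 := by rw [div_le_iff₀ hℓ0]; linarith
    linarith
  obtain ⟨hv2, hv1, hv3⟩ := log_floor ℓ hℓ2
  obtain ⟨v, hv⟩ : ∃ v : ℕ, v = ⌊Real.exp ℓ⌋₊ := ⟨_, rfl⟩
  rw [← hv] at hv2 hv1 hv3 ⊢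
  have h1 := h η v H hη0 hη1 hv2 hH
  refine h1.trans ?_
  have hv0 : (0 : ℝ) < v := by exact_mod_cast (by omega : 0 < v)
  have hlv0 : 0 < Real.log v := Real.log_pos (by exact_mod_cast (by omega : 1 < v))
  obtain ⟨r, hr⟩ : ∃ r : ℝ, r = √w' := ⟨_, rfl⟩
  have hrr : r * r = w' := by rw [hr]; exact Real.mul_self_sqrt hw0.le
  have hr32 : 32 ≤ r := by
    rw [hr]; apply Real.le_sqrt_of_sq_le; linarith
  have hre : Real.exp (b / 2) = r := by
    have : b / 2 = Real.log r := by rw [hr, Real.log_sqrt hw0.le, ← hb]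
    rw [this, Real.exp_log (by linarith)]
  have e1 : (v : ℝ) ^ η ≤ r := by
    rw [Real.rpow_def_of_pos hv0, ← hre]
    apply Real.exp_le_exp.2
    calc Real.log v * η ≤ ℓ * η := mul_le_mul_of_nonneg_right hv1 hη0
      _ = b / 2 := by rw [hη]; field_simp
  have e2 : (H : ℝ) ^ (1 - η) = H * Real.exp (-(1 / 2 * (w' * b))) := by
    rw [Real.rpow_sub hH0, Real.rpow_one, Real.rpow_def_of_pos hH0, ← hhe, hhw, hη, Real.exp_neg, div_eq_mul_inv]
    congr 3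
    field_simp
  have e3 : 4 * η * (v : ℝ) ^ η * (Real.log v + C) ≤ 4 * (b * r) := by
    have h2 : Real.log v + C ≤ 2 * ℓ := by linarith
    calc 4 * η * (v : ℝ) ^ η * (Real.log v + C) ≤ 4 * η * r * (2 * ℓ) := by gcongr
      _ = 4 * (b * r) := by rw [hη]; field_simp
  have e4 : Real.log v / hh ≤ 1 / w' := by
    rw [div_le_div_iff₀ hh0 hw0, one_mul, hhw]
    exact mul_le_mul_of_nonneg_right hv1 hw0.le
  have e5 : r * (Real.exp (-(1 / 2 * (w' * b))) * Real.exp (4 * (b * r))) ≤ Real.exp (-(1 / 4 * (w' * b))) := by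
    rw [← hre, ← Real.exp_add, ← Real.exp_add, hre]
    apply Real.exp_le_exp.2
    have h3 : 32 * (b * r) ≤ w' * b := by
      rw [← hrr]
      nlinarith [mul_nonneg (by linarith : (0 : ℝ) ≤ b) (by linarith : (0 : ℝ) ≤ r)]
    have h4 : 1024 * b ≤ w' * b := mul_le_mul_of_nonneg_right hw (by linarith)
    linarith
  rw [← hhe]
  have e6 : C / hh * ((H : ℝ) ^ (1 - η) * (v : ℝ) ^ η * (Real.log v * Real.exp (4 * η * (v : ℝ) ^ η * (Real.log v + C)))) ≤
      C * H / w' * Real.exp (-(1 / 4 * (w' * b))) := by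
    calc C / hh * ((H : ℝ) ^ (1 - η) * (v : ℝ) ^ η * (Real.log v * Real.exp (4 * η * (v : ℝ) ^ η * (Real.log v + C))))
        ≤ C / hh * ((H : ℝ) ^ (1 - η) * r * (Real.log v * Real.exp (4 * (b * r)))) := by gcongr
      _ = C * H * (Real.log v / hh) * (r * (Real.exp (-(1 / 2 * (w' * b))) * Real.exp (4 * (b * r)))) := by
          rw [e2]; ring
      _ ≤ C * H * (1 / w') * Real.exp (-(1 / 4 * (w' * b))) := by gcongr
      _ = _ := by ring
  linarith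

end Pool.Agent.V5helper42.LR
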