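import Pool.Agent.V5helper42.LR.D

/-! The number of the survivors, and the conditions on the parameters. -/

set_option autoImplicit false

namespace Pool.Agent.V5helper42.LR

open Finset Filter Pool.Agent.H318R2.Cr Pool.Agent.H398R2.RK

open scoped Classical

theorem surv_bound : ∃ C : ℝ, 2 ≤ C ∧ ∀ (H : ℕ) (w' κ h : ℝ), h = Real.log H → 1024 ≤ w' → 0 ≤ κ → κ ≤ 1 / 2 →
    C * w' ≤ h → 2 * Real.log w' * w' ≤ h →
    ∃ a : ℕ → ℕ, ((surv H ⌊Real.exp ((1 - κ) * h)⌋₊ a).card : ℝ) ≤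
      C * (w' / h) * (√(H : ℝ) + H / w' * Real.exp (-(1 / 4 * (w' * Real.log w'))) + H * (κ + 1 / h)) := by
  obtain ⟨c₁, c₂, hc₁, hc₁₂, hV⟩ := cz_bounds
  obtain ⟨Cm, hCm, hsum⟩ := sum_inv
  obtain ⟨Cs, hCs, hsm⟩ := smooth_part
  have hc₂ : 0 < c₂ := hc₁.trans_le hc₁₂
  obtain ⟨C, hC⟩ : ∃ C : ℝ, C = max 2 (max Cs (2 * c₂ * (Cs + 4 + 4 * (1 + Cm)))) := ⟨_, rfl⟩
  have hC2 : 2 ≤ C := by rw [hC]; exact le_max_left _ _
  have hCCs : Cs ≤ C := by rw [hC]; exact (le_max_left _ _).trans (le_max_right _ _)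
  have hCb : 2 * c₂ * (Cs + 4 + 4 * (1 + Cm)) ≤ C := by
    rw [hC]; exact (le_max_right _ _).trans (le_max_right _ _)
  refine ⟨C, hC2, fun H w' κ h hh hw hκ0 hκ1 hCw hlw => ?_⟩
  have hw0 : 0 < w' := by linarith
  have hh1 : 2 * 1024 ≤ h := by nlinarith
  have hh0 : 0 < h := by linarith
  have hH1 : 2 ≤ H := by
    by_contra hcon
    have : (H : ℝ) ≤ 1 := by exact_mod_cast (by omega : H ≤ 1)
    have h2 : Real.log H ≤ 0 := Real.log_nonpos (Nat.cast_nonneg _) this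
    linarith
  have hH0 : (0 : ℝ) < H := by exact_mod_cast (by omega : 0 < H)
  obtain ⟨ℓ, hℓ⟩ : ∃ ℓ : ℝ, ℓ = h / w' := ⟨_, rfl⟩
  have hCℓ : C ≤ ℓ := by rw [hℓ, le_div_iff₀ hw0]; exact hCw
  have hℓ2 : 2 ≤ ℓ := hC2.trans hCℓ
  have hlwℓ : 2 * Real.log w' ≤ ℓ := by rw [hℓ, le_div_iff₀ hw0]; exact hlw
  have h1 := hsm H w' ℓ hH1 hw (by rw [hℓ, hh]) hℓ2 (hCCs.trans hCℓ) hlwℓ
  obtain ⟨hv2, hv1, hv3⟩ := log_floor ℓ hℓ2
  obtain ⟨v, hv⟩ : ∃ v : ℕ, v = ⌊Real.exp ℓ⌋₊ := ⟨_, rfl⟩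
  rw [← hv] at h1 hv2 hv1 hv3
  have hκh : 2 ≤ (1 - κ) * h := by nlinarith
  obtain ⟨hz2, hz1, hz3⟩ := log_floor ((1 - κ) * h) hκh
  have hℓh : ℓ ≤ (1 - κ) * h := by
    rw [hℓ, div_le_iff₀ hw0]
    nlinarith
  have hvz : v ≤ ⌊Real.exp ((1 - κ) * h)⌋₊ := by
    rw [hv]
    exact Nat.floor_le_floor (Real.exp_le_exp.2 hℓh)
  obtain ⟨z, hz⟩ : ∃ z : ℕ, z = ⌊Real.exp ((1 - κ) * h)⌋₊ := ⟨_, rfl⟩
  rw [← hz] at hz2 hz1 hz3 hvz ⊢
  have hzH : z ≤ H := by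
    rw [hz]
    apply Nat.floor_le_of_le
    calc Real.exp ((1 - κ) * h) ≤ Real.exp h := Real.exp_le_exp.2 (by nlinarith)
      _ = H := by rw [hh, Real.exp_log hH0]
  obtain ⟨a, ha⟩ := cover H v z hvz
  refine ⟨a, ha.trans ?_⟩
  have h2 := hsum z H hz2 hzH
  have hlz : h / 4 ≤ Real.log z := by nlinarith
  have hlz0 : 0 < Real.log z := by linarith
  have h3 : ∑ q ∈ (Ioc z H).filter Nat.Prime, (1 : ℝ) / q ≤ 4 * κ + 4 * (1 + Cm) * (1 / h) := by
    refine h2.trans ?_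
    rw [← hh]
    calc (h - Real.log z + Cm) / Real.log z ≤ (κ * h + (1 + Cm)) / Real.log z := by
          apply div_le_div_of_nonneg_right _ hlz0.le
          nlinarith
      _ ≤ (κ * h + (1 + Cm)) / (h / 4) := by
          apply div_le_div_of_nonneg_left _ (by positivity) hlz
          positivity
      _ = _ := by field_simp
  have hlv : ℓ / 2 ≤ Real.log v := by linarith
  have h4 : V v ≤ 2 * c₂ * (w' / h) := by
    have h5 := (hV v hv2).2
    have h6 : V v ≤ c₂ / Real.log v := by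
      rw [le_div_iff₀ (by linarith)]; exact h5
    refine h6.trans ?_
    calc c₂ / Real.log v ≤ c₂ / (ℓ / 2) := div_le_div_of_nonneg_left hc₂.le (by linarith) hlv
      _ = 2 * c₂ * (w' / h) := by rw [hℓ]; field_simp
  obtain ⟨E, hE⟩ : ∃ E : ℝ, E = Real.exp (-(1 / 4 * (w' * Real.log w'))) := ⟨_, rfl⟩
  rw [← hE] at h1 ⊢
  have hE0 : 0 < E := by rw [hE]; exact Real.exp_pos _
  have hsq : 0 ≤ √(H : ℝ) := Real.sqrt_nonneg _
  have h7 : ((Sm v H).card : ℝ) + H * ∑ q ∈ (Ioc z H).filter Nat.Prime, (1 : ℝ) / q ≤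
      (Cs + 4 + 4 * (1 + Cm)) * (√(H : ℝ) + H / w' * E + H * (κ + 1 / h)) := by
    have h8 := mul_le_mul_of_nonneg_left h3 hH0.le
    have e1 : Cs * H / w' * E = Cs * (H / w' * E) := by ring
    rw [e1] at h1
    have a1 : 0 ≤ (H : ℝ) / w' * E := by positivity
    have a2 : 0 ≤ (H : ℝ) * κ := by positivity
    have a3 : 0 ≤ (H : ℝ) * (1 / h) := by positivity
    nlinarith [mul_nonneg (by linarith : (0 : ℝ) ≤ Cs - 1) hsq, mul_nonneg (by linarith : (0 : ℝ) ≤ Cs) a2,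
      mul_nonneg (by linarith : (0 : ℝ) ≤ Cs) a3, mul_nonneg hCm.le hsq, mul_nonneg hCm.le a1,
      mul_nonneg hCm.le a2]
  have h9 : 0 ≤ √(H : ℝ) + H / w' * E + H * (κ + 1 / h) := by positivity
  have h10 : 0 ≤ ((Sm v H).card : ℝ) + H * ∑ q ∈ (Ioc z H).filter Nat.Prime, (1 : ℝ) / q := by positivity
  calc V v * (((Sm v H).card : ℝ) + H * ∑ q ∈ (Ioc z H).filter Nat.Prime, (1 : ℝ) / q)
      ≤ 2 * c₂ * (w' / h) * ((Cs + 4 + 4 * (1 + Cm)) * (√(H : ℝ) + H / w' * E + H * (κ + 1 / h))) := by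
        apply mul_le_mul h4 h7 h10 (by positivity)
    _ = (2 * c₂ * (Cs + 4 + 4 * (1 + Cm))) * ((w' / h) * (√(H : ℝ) + H / w' * E + H * (κ + 1 / h))) := by ring
    _ ≤ C * ((w' / h) * (√(H : ℝ) + H / w' * E + H * (κ + 1 / h))) :=
        mul_le_mul_of_nonneg_right hCb (by positivity)
    _ = _ := by ring

/-- conditions for large `y` -/
theorem ev_y (C K₁ d x0 : ℝ) (hd : 0 < d) : ∃ y₀ : ℝ, ∀ y : ℝ, y₀ ≤ y →
    1 ≤ Real.log (Real.log (Real.log (Real.log y))) ∧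
    Real.log (Real.log y) ≤ √(Real.log y) ∧
    C * K₁ * Real.log (Real.log (Real.log y)) ≤ Real.log (Real.log y) ∧
    2 * K₁ ^ 2 * Real.log (Real.log (Real.log y)) ^ 2 ≤ Real.log (Real.log y) ∧
    2 ≤ d * Real.log y ∧ x0 ≤ d * Real.log y ∧ Real.log y + 1 ≤ Real.exp (d * Real.log y) ∧
    64 * Real.log y ^ 4 ≤ Real.exp (Real.log y / 2) ∧ 16 ≤ Real.log y := by
  have hL : Tendsto (fun y : ℝ => Real.log y) atTop atTop := Real.tendsto_log_atTop
  have hA : Tendsto (fun y : ℝ => Real.log (Real.log y)) atTop atTop := Real.tendsto_log_atTop.comp hL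
  have hB : Tendsto (fun y : ℝ => Real.log (Real.log (Real.log y))) atTop atTop := Real.tendsto_log_atTop.comp hA
  have hD : Tendsto (fun y : ℝ => Real.log (Real.log (Real.log (Real.log y)))) atTop atTop :=
    Real.tendsto_log_atTop.comp hB
  have a2 : ∀ᶠ t : ℝ in atTop, Real.log t ≤ √t := by
    filter_upwards [ev_log_le 1 one_pos] with t ht
    rwa [one_mul] at ht
  have a3 : ∀ᶠ t : ℝ in atTop, C * K₁ * Real.log t ≤ t := by
    have h1 := (Real.isLittleO_log_id_atTop).bound (show (0 : ℝ) < 1 / (|C * K₁| + 1) by positivity)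
    filter_upwards [h1, eventually_ge_atTop (1 : ℝ)] with t ht ht1
    have hl0 : 0 ≤ Real.log t := Real.log_nonneg ht1
    rw [Real.norm_of_nonneg hl0, id, Real.norm_of_nonneg (by linarith), div_mul_eq_mul_div, one_mul,
      le_div_iff₀ (by positivity)] at ht
    have := le_abs_self (C * K₁)
    nlinarith
  have a4 : ∀ᶠ t : ℝ in atTop, 2 * K₁ ^ 2 * Real.log t ^ 2 ≤ t := by
    have h1 := (Real.isLittleO_pow_log_id_atTop (n := 2)).bound (show (0 : ℝ) < 1 / (2 * K₁ ^ 2 + 1) by positivity)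
    filter_upwards [h1, eventually_ge_atTop (1 : ℝ)] with t ht ht1
    have hl0 : 0 ≤ Real.log t ^ 2 := by positivity
    rw [Real.norm_of_nonneg hl0, id, Real.norm_of_nonneg (by linarith), div_mul_eq_mul_div, one_mul,
      le_div_iff₀ (by positivity)] at ht
    nlinarith
  have a5 : ∀ᶠ t : ℝ in atTop, 2 ≤ d * t ∧ x0 ≤ d * t := by
    have h1 : Tendsto (fun t : ℝ => d * t) atTop atTop := tendsto_id.const_mul_atTop hd
    filter_upwards [h1.eventually_ge_atTop 2, h1.eventually_ge_atTop x0] with t h1 h2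
    exact ⟨h1, h2⟩
  have a6 : ∀ᶠ t : ℝ in atTop, t + 1 ≤ Real.exp (d * t) := by
    filter_upwards [eventually_ge_atTop (2 / d ^ 2), eventually_ge_atTop (0 : ℝ), eventually_ge_atTop (1 : ℝ)]
      with t h1 h2 h3
    have h4 := Real.quadratic_le_exp_of_nonneg (x := d * t) (by positivity)
    rw [div_le_iff₀ (by positivity)] at h1
    nlinarith [mul_le_mul_of_nonneg_right h1 h2, mul_pos hd (by linarith : (0 : ℝ) < t)]
  have a7 : ∀ᶠ t : ℝ in atTop, 64 * t ^ 4 ≤ Real.exp (t / 2) := by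
    filter_upwards [eventually_ge_atTop (245760 : ℝ)] with t ht
    have h1 := Real.pow_div_factorial_le_exp (t / 2) (by linarith) 5
    norm_num [Nat.factorial] at h1
    have h2 : (t / 2) ^ 5 / 120 = t ^ 4 * t / 3840 := by ring
    rw [h2] at h1
    refine le_trans ?_ h1
    have h3 : 0 ≤ t ^ 4 := by positivity
    rw [le_div_iff₀ (by norm_num)]
    nlinarith
  obtain ⟨y₀, hy⟩ := eventually_atTop.1 ((((hD.eventually_ge_atTop 1).and (hL.eventually a2)).and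
    ((hA.eventually a3).and (hA.eventually a4))).and (((hL.eventually a5).and (hL.eventually a6)).and
    ((hL.eventually a7).and (hL.eventually_ge_atTop 16))))
  refine ⟨y₀, fun y h => ?_⟩
  obtain ⟨⟨⟨b1, b2⟩, b3, b4⟩, ⟨b5, b6⟩, b7, b8⟩ := hy y h
  exact ⟨b1, b2, b3, b4, b5.1, b5.2, b6, b7, b8⟩

end Pool.Agent.V5helper42.LR
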