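import Pool.Agent.V5helper42.LR.E

/-! The main theorem. -/

set_option autoImplicit false

namespace Pool.Agent.V5helper42.LR

open Finset Filter Pool.Agent.H318R2.Cr Pool.Agent.H398R2.RK

open scoped Classical

theorem range_facts (A B D c lam : ℝ) (hB : B = Real.log A) (hD : D = Real.log B) (hD1 : 1 ≤ D) (hA0 : 0 < A)
    (hc0 : 0 < c) (hc1 : c ≤ 1) (h16 : 16 ≤ lam) (hlam : lam ≤ c * (A * D / B ^ 2)) :
    lam ≤ A ∧ Real.log lam ≤ B ∧ lam * Real.log lam ^ 2 / Real.log (Real.log lam) ≤ c * A := by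
  have hB0 : 0 < B := by
    by_contra hcon
    have h2 : B ≤ 0 := not_lt.1 hcon
    have h3 : 16 ≤ c * (A * D / B ^ 2) := h16.trans hlam
    have h4 : 0 < B ^ 2 := by
      by_contra h5
      have h6 : B ^ 2 = 0 := le_antisymm (not_lt.1 h5) (sq_nonneg B)
      rw [h6, div_zero, mul_zero] at h3
      linarith
    have h7 : B < 0 := lt_of_le_of_ne h2 (by rintro rfl; simp at h4)
    have h8 : A < 1 := by
      by_contra h9
      have := Real.log_nonneg (not_lt.1 h9)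
      rw [← hB] at this
      linarith
    -- |B| ≥ e since log |B| ≥ 1
    have h10 : D = Real.log (-B) := by rw [hD, Real.log_neg_eq_log]
    have h11 : D ≤ -B - 1 := by rw [h10]; exact Real.log_le_sub_one_of_pos (by linarith)
    have h12 : A * D / B ^ 2 ≤ 1 := by
      rw [div_le_one h4]
      nlinarith
    have h13 : 0 ≤ A * D / B ^ 2 := by positivity
    nlinarith
  have hBe : D ≤ B - 1 := by rw [hD]; exact Real.log_le_sub_one_of_pos hB0
  have hDB : A * D / B ^ 2 ≤ A := by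
    rw [div_le_iff₀ (by positivity)]
    apply mul_le_mul_of_nonneg_left _ hA0.le
    nlinarith
  have h1 : lam ≤ A := by
    refine hlam.trans ?_
    have : 0 ≤ A * D / B ^ 2 := by positivity
    nlinarith
  have h2 : Real.log lam ≤ B := by rw [hB]; exact Real.log_le_log (by linarith) h1
  obtain ⟨ht, hu, -, -, -⟩ := lam_facts lam h16
  obtain ⟨t, htd⟩ : ∃ t : ℝ, t = Real.log lam := ⟨_, rfl⟩
  rw [← htd] at ht hu h2 ⊢
  obtain ⟨u, hud⟩ : ∃ u : ℝ, u = Real.log t := ⟨_, rfl⟩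
  rw [← hud] at hu ⊢
  refine ⟨h1, h2, ?_⟩
  have ht0 : 0 < t := by linarith
  have he : Real.exp (1 / 2) ≤ 2 := by
    have h3 : Real.exp (1 / 2) * Real.exp (1 / 2) = Real.exp 1 := by rw [← Real.exp_add]; norm_num
    have h4 := Real.exp_one_lt_d9
    have h5 := Real.exp_pos (1 / 2)
    nlinarith
  have h3 : D / B ^ 2 ≤ u / t ^ 2 := by
    have h4 := Real.log_div_self_rpow_antitoneOn (show (0 : ℝ) < 2 by norm_num)
      (show t ∈ Set.Ici (Real.exp 2⁻¹) by
        rw [Set.mem_Ici, ← one_div]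
        linarith)
      (show B ∈ Set.Ici (Real.exp 2⁻¹) by
        rw [Set.mem_Ici, ← one_div]
        linarith) h2
    beta_reduce at h4
    rw [hD, hud]
    have e1 : B ^ (2 : ℝ) = B ^ 2 := by exact_mod_cast Real.rpow_natCast B 2
    have e2 : t ^ (2 : ℝ) = t ^ 2 := by exact_mod_cast Real.rpow_natCast t 2
    rw [e1, e2] at h4
    exact h4
  rw [div_le_iff₀ (by linarith)]
  have h5 : lam * t ^ 2 ≤ c * (A * D / B ^ 2) * t ^ 2 := mul_le_mul_of_nonneg_right hlam (by positivity)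
  refine h5.trans ?_
  calc c * (A * D / B ^ 2) * t ^ 2 = c * A * (D / B ^ 2 * t ^ 2) := by ring
    _ ≤ c * A * (u / t ^ 2 * t ^ 2) := by gcongr
    _ = c * A * u := by field_simp

/-- the product of the number of the survivors and the density -/
theorem small_sum (C c₁ c₂ d : ℝ) (hC : 2 ≤ C) (hc₁ : 0 < c₁) (hc₂ : 0 < c₂) (hd : 0 < d) :
    ∃ K₁ c' : ℝ, 512 ≤ K₁ ∧ 0 < c' ∧ c' ≤ 1 / 2 ∧ ∀ (L A lam H h t u w' κ Vr S : ℝ),
      0 < L → A ≤ √L → 16 ≤ lam → t = Real.log lam → u = Real.log t → lam * t ^ 2 / u ≤ c' / 4 * A →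
      L ≤ H → H ≤ lam * L → A ≤ h → 0 < A → w' = K₁ * (t / u) → κ = c' / (lam * (t / u)) →
      0 ≤ Vr → Vr ≤ 2 * c₂ / (c₁ * d) * (h / L) →
      0 ≤ S → S ≤ C * (w' / h) * (√H + H / w' * Real.exp (-(1 / 4 * (w' * Real.log w'))) + H * (κ + 1 / h)) →
      S * (3 / 2 * Vr) ≤ 1 / 4 := by
  obtain ⟨Q, hQ⟩ : ∃ Q : ℝ, Q = 3 * c₂ * C / (c₁ * d) := ⟨_, rfl⟩
  have hQ0 : 0 < Q := by rw [hQ]; positivity
  obtain ⟨K₁, hK₁⟩ : ∃ K₁ : ℝ, K₁ = max 512 (8 * (1 + Real.log (16 * Q))) := ⟨_, rfl⟩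
  have hK512 : 512 ≤ K₁ := by rw [hK₁]; exact le_max_left _ _
  have hKQ : Real.log (16 * Q) ≤ K₁ / 8 - 1 := by
    have : 8 * (1 + Real.log (16 * Q)) ≤ K₁ := by rw [hK₁]; exact le_max_right _ _
    linarith
  have hK0 : 0 < K₁ := by linarith
  obtain ⟨c', hc'⟩ : ∃ c' : ℝ, c' = min (1 / 2) (1 / (16 * Q * K₁)) := ⟨_, rfl⟩
  have hc'0 : 0 < c' := by rw [hc']; positivity
  have hc'1 : c' ≤ 1 / 2 := by rw [hc']; exact min_le_left _ _
  have hc'2 : Q * K₁ * c' ≤ 1 / 16 := by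
    have h1 : c' ≤ 1 / (16 * Q * K₁) := by rw [hc']; exact min_le_right _ _
    rw [le_div_iff₀ (by positivity)] at h1
    linarith
  refine ⟨K₁, c', hK512, hc'0, hc'1, ?_⟩
  intro L A lam H h t u w' κ Vr S hL hAL h16 ht hu hrange hLH hHlam hAh hA0 hw' hκ hVr0 hVr hS0 hS
  obtain ⟨f1, f2, f3, f4, f5⟩ := lam_facts lam h16
  rw [← ht, ← hu] at f2 f3 f4 f5
  rw [← ht] at f1
  obtain ⟨ρ, hρ⟩ : ∃ ρ : ℝ, ρ = t / u := ⟨_, rfl⟩
  rw [← hρ] at f3 f4 f5 hw' hκ
  have ht0 : 0 < t := by linarith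
  have hu0 : 0 < u := by linarith
  have hρ0 : 0 < ρ := by linarith
  have hlam0 : 0 < lam := by linarith
  have hh0 : 0 < h := by linarith
  have hH0 : 0 < H := by linarith
  have hw0 : 0 < w' := by rw [hw']; positivity
  have hκ0 : 0 < κ := by rw [hκ]; positivity
  -- `lam ρ ≤ c'/4 A`
  have g1 : lam * ρ ≤ c' / 4 * A := by
    have h1 : lam * t ^ 2 / u = lam * ρ * t := by rw [hρ]; field_simp
    rw [h1] at hrange
    have h2 : lam * ρ * 1 ≤ lam * ρ * t := mul_le_mul_of_nonneg_left (by linarith) (by positivity)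
    linarith
  have hsL : 0 < √L := Real.sqrt_pos.2 hL
  have hsH : √L ≤ √H := Real.sqrt_le_sqrt hLH
  have hsH0 : 0 < √H := by linarith
  have hHH : √H * √H = H := Real.mul_self_sqrt hH0.le
  -- the exponential
  have g2 : t - 1 / 4 * (w' * Real.log w') ≤ -(K₁ / 8 - 1) := by
    have h1 : Real.log w' = Real.log K₁ + Real.log ρ := by
      rw [hw', Real.log_mul hK0.ne' hρ0.ne']
    have h2 : 0 ≤ Real.log K₁ := Real.log_nonneg (by linarith)
    have h3 : K₁ * t / 2 ≤ w' * Real.log w' := by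
      have h4 : u / 2 ≤ Real.log w' := by rw [h1]; linarith
      calc K₁ * t / 2 = w' * (u / 2) := by rw [hw', hρ]; field_simp
        _ ≤ _ := mul_le_mul_of_nonneg_left h4 hw0.le
    nlinarith
  have g3 : Q * (lam * Real.exp (-(1 / 4 * (w' * Real.log w')))) ≤ 1 / 16 := by
    have h1 : lam * Real.exp (-(1 / 4 * (w' * Real.log w'))) = Real.exp (t - 1 / 4 * (w' * Real.log w')) := by
      rw [sub_eq_add_neg, Real.exp_add, ht, Real.exp_log hlam0]
    rw [h1]
    have h2 : Real.exp (t - 1 / 4 * (w' * Real.log w')) ≤ Real.exp (-(Real.log (16 * Q))) :=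
      Real.exp_le_exp.2 (by linarith)
    rw [Real.exp_neg, Real.exp_log (by positivity)] at h2
    calc Q * Real.exp (t - 1 / 4 * (w' * Real.log w')) ≤ Q * (16 * Q)⁻¹ := mul_le_mul_of_nonneg_left h2 hQ0.le
      _ = 1 / 16 := by field_simp
  -- the main computation
  have g4 : S * (3 / 2 * Vr) ≤ Q * (w' / L) *
      (√H + H / w' * Real.exp (-(1 / 4 * (w' * Real.log w'))) + H * (κ + 1 / h)) := by
    calc S * (3 / 2 * Vr) ≤ (C * (w' / h) * (√H + H / w' * Real.exp (-(1 / 4 * (w' * Real.log w'))) +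
          H * (κ + 1 / h))) * (3 / 2 * (2 * c₂ / (c₁ * d) * (h / L))) := by
          apply mul_le_mul hS (by linarith) (by positivity) (hS0.trans hS)
      _ = _ := by rw [hQ]; field_simp
  have hHL : H / L ≤ lam := by rw [div_le_iff₀ hL]; exact hHlam
  have g5 : Q * (w' / L) * √H ≤ 1 / 16 := by
    -- √H = H / √H ≤ lam L / √L
    have h1 : √H ≤ lam * L / √L := by
      rw [le_div_iff₀ hsL]
      calc √H * √L ≤ √H * √H := mul_le_mul_of_nonneg_left hsH hsH0.le
        _ = H := hHH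
        _ ≤ _ := hHlam
    have h2 : A / √L ≤ 1 := by rw [div_le_one hsL]; exact hAL
    calc Q * (w' / L) * √H ≤ Q * (w' / L) * (lam * L / √L) := by gcongr
      _ = Q * K₁ * (lam * ρ) / √L := by rw [hw']; field_simp
      _ ≤ Q * K₁ * (c' / 4 * A) / √L := by gcongr
      _ = Q * K₁ * c' * (1 / 4) * (A / √L) := by ring
      _ ≤ 1 / 16 * (1 / 4) * 1 := by gcongr
      _ ≤ 1 / 16 := by norm_num
  have g6 : Q * (w' / L) * (H / w' * Real.exp (-(1 / 4 * (w' * Real.log w')))) ≤ 1 / 16 := by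
    calc Q * (w' / L) * (H / w' * Real.exp (-(1 / 4 * (w' * Real.log w'))))
        = Q * ((H / L) * Real.exp (-(1 / 4 * (w' * Real.log w')))) := by field_simp
      _ ≤ Q * (lam * Real.exp (-(1 / 4 * (w' * Real.log w')))) := by gcongr
      _ ≤ _ := g3
  have g7 : Q * (w' / L) * (H * κ) ≤ 1 / 16 := by
    calc Q * (w' / L) * (H * κ) = Q * w' * (H / L) * κ := by ring
      _ ≤ Q * w' * lam * κ := by gcongr
      _ = Q * K₁ * c' := by rw [hw', hκ]; field_simp
      _ ≤ _ := hc'2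
  have g8 : Q * (w' / L) * (H * (1 / h)) ≤ 1 / 16 := by
    calc Q * (w' / L) * (H * (1 / h)) = Q * w' * (H / L) * (1 / h) := by ring
      _ ≤ Q * w' * lam * (1 / A) := by gcongr
      _ = Q * K₁ * (lam * ρ) / A := by rw [hw']; ring
      _ ≤ Q * K₁ * (c' / 4 * A) / A := by gcongr
      _ = Q * K₁ * c' * (1 / 4) := by field_simp
      _ ≤ 1 / 16 * (1 / 4) := by gcongr
      _ ≤ 1 / 16 := by norm_num
  have g9 : Q * (w' / L) * (√H + H / w' * Real.exp (-(1 / 4 * (w' * Real.log w'))) + H * (κ + 1 / h)) =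
      Q * (w' / L) * √H + Q * (w' / L) * (H / w' * Real.exp (-(1 / 4 * (w' * Real.log w')))) +
      Q * (w' / L) * (H * κ) + Q * (w' / L) * (H * (1 / h)) := by ring
  rw [g9] at g4
  linarith

end Pool.Agent.V5helper42.LR
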