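import Pool.Agent.V5helper42.LR.F

/-! The main theorem: assembly. -/

set_option autoImplicit false

namespace Pool.Agent.V5helper42.LR

open Finset Filter Pool.Agent.H318R2.Cr Pool.Agent.H398R2.RK

open scoped Classical

theorem W_le (z : ℕ) : ((∏ p ∈ Pz z, p : ℕ) : ℝ) ≤ Real.exp (3 / 2 * z) := by
  have h1 : (∏ p ∈ Pz z, p) = primorial z := by
    unfold primorial Pz
    apply prod_congr _ (fun _ _ => rfl)
    ext p
    rw [mem_filter, mem_filter, mem_Ioc, mem_range]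
    constructor
    · rintro ⟨h1, h2⟩; exact ⟨by omega, h2⟩
    · rintro ⟨h1, h2⟩; exact ⟨⟨h2.pos, by omega⟩, h2⟩
  rw [h1]
  have h2 : (primorial z : ℝ) ≤ (4 : ℝ) ^ z := by exact_mod_cast primorial_le_four_pow z
  refine h2.trans ?_
  have h3 : (4 : ℝ) ^ z = Real.exp (Real.log 4 * z) := by
    rw [← Real.rpow_def_of_pos (by norm_num), Real.rpow_natCast]
  rw [h3]
  apply Real.exp_le_exp.2
  apply mul_le_mul_of_nonneg_right _ (Nat.cast_nonneg z)
  have h4 : Real.log 4 = 2 * Real.log 2 := by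
    rw [show (4 : ℝ) = 2 ^ 2 by norm_num, Real.log_pow]; norm_num
  have := Real.log_two_lt_d9
  linarith

theorem runs_mono (H w w' X Y : ℕ) (h : w ≤ w') : (runs H w X Y).card ≤ (runs H w' X Y).card := by
  apply card_le_card
  intro n hn
  unfold runs at hn ⊢
  rw [mem_filter] at hn ⊢
  refine ⟨hn.1, fun s hs => ?_⟩
  obtain ⟨p, h1, h2, h3⟩ := hn.2 s hs
  exact ⟨p, h1, h2.trans h, h3⟩

set_option maxHeartbeats 2000000 in
theorem main (δ : ℝ) (hδ : 0 < δ) : ∃ c y₀ : ℝ, 0 < c ∧ ∀ y : ℝ, y₀ ≤ y → 16 ≤ Real.log y ∧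
    ∀ lam : ℝ, 16 ≤ lam →
    lam ≤ c * (Real.log (Real.log y) * Real.log (Real.log (Real.log (Real.log y))) /
      Real.log (Real.log (Real.log y)) ^ 2) → ∀ X : ℕ,
    y * Real.exp (-(Real.log y) ^ (1 - c * (Real.log (Real.log lam) / (lam * Real.log lam)))) ≤
      ((runs ⌊lam * Real.log y⌋₊ ⌊y ^ δ⌋₊ X ⌊y⌋₊).card : ℝ) := by
  obtain ⟨K, x0, hK, hcount⟩ := count
  obtain ⟨c₁, c₂, hc₁, hc₁₂, hV⟩ := cz_bounds
  have hc₂ : 0 < c₂ := hc₁.trans_le hc₁₂
  obtain ⟨C, hC2, hsb⟩ := surv_bound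
  have hKr : (1 : ℝ) ≤ K := by exact_mod_cast hK
  obtain ⟨d, hd⟩ : ∃ d : ℝ, d = min δ (1 / (4 * K)) := ⟨_, rfl⟩
  have hd0 : 0 < d := by rw [hd]; positivity
  have hdδ : d ≤ δ := by rw [hd]; exact min_le_left _ _
  have hdK : K * d ≤ 1 / 4 := by
    have h1 : d ≤ 1 / (4 * K) := by rw [hd]; exact min_le_right _ _
    rw [le_div_iff₀ (by positivity)] at h1
    linarith
  have hd4 : d ≤ 1 / 4 := by
    have := mul_le_mul_of_nonneg_right hKr hd0.le
    linarith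
  obtain ⟨K₁, c', hK512, hc'0, hc'1, hss⟩ := small_sum C c₁ c₂ d hC2 hc₁ hc₂ hd0
  obtain ⟨y₀, hev⟩ := ev_y C K₁ d (x0 + 1) hd0
  refine ⟨c' / 4, max y₀ 1, by positivity, fun y hy => ?_⟩
  obtain ⟨b1, b2, b3, b4, b5, b6, b7, b8, b9⟩ := hev y ((le_max_left _ _).trans hy)
  have hy0 : 0 < y := lt_of_lt_of_le one_pos ((le_max_right _ _).trans hy)
  refine ⟨b9, fun lam h16 hlam X => ?_⟩
  obtain ⟨L, hL⟩ : ∃ L : ℝ, L = Real.log y := ⟨_, rfl⟩
  rw [← hL] at b1 b2 b3 b4 b5 b6 b7 b8 b9 hlam ⊢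
  obtain ⟨A, hA⟩ : ∃ A : ℝ, A = Real.log L := ⟨_, rfl⟩
  rw [← hA] at b1 b2 b3 b4 hlam
  obtain ⟨B, hB⟩ : ∃ B : ℝ, B = Real.log A := ⟨_, rfl⟩
  rw [← hB] at b1 b3 b4 hlam
  obtain ⟨D, hD⟩ : ∃ D : ℝ, D = Real.log B := ⟨_, rfl⟩
  rw [← hD] at b1 hlam
  have hL0 : 0 < L := by linarith
  have hyL : y = Real.exp L := by rw [hL, Real.exp_log hy0]
  have hA27 : 2.77 < A := by
    rw [hA]
    exact log16.trans_le (Real.log_le_log (by norm_num) b9)
  have hA0 : 0 < A := by linarith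
  obtain ⟨r1, r2, r3⟩ := range_facts A B D (c' / 4) lam hB hD b1 hA0 (by positivity) (by linarith) h16 hlam
  obtain ⟨f1, f2, f3, f4, f5⟩ := lam_facts lam h16
  obtain ⟨t, ht⟩ : ∃ t : ℝ, t = Real.log lam := ⟨_, rfl⟩
  rw [← ht] at r2 r3 f1 f2 f3 f4 f5 ⊢
  obtain ⟨u, hu⟩ : ∃ u : ℝ, u = Real.log t := ⟨_, rfl⟩
  rw [← hu] at r3 f2 f3 f4 f5 ⊢
  have ht0 : 0 < t := by linarith
  have hu0 : 0 < u := by linarith
  have hlam0 : 0 < lam := by linarith
  have hAL : A ≤ L := by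
    rw [hA]
    have := Real.log_le_sub_one_of_pos hL0
    linarith
  obtain ⟨H, hH⟩ : ∃ H : ℕ, H = ⌊lam * L⌋₊ := ⟨_, rfl⟩
  rw [← hH]
  have hH1 : (H : ℝ) ≤ lam * L := by rw [hH]; exact Nat.floor_le (by positivity)
  have hH2 : L ≤ H := by
    have h1 : lam * L < (H : ℝ) + 1 := by rw [hH]; exact Nat.lt_floor_add_one _
    have h2 := mul_le_mul_of_nonneg_right h16 hL0.le
    linarith
  have hH0 : (0 : ℝ) < H := by linarith
  obtain ⟨h, hh⟩ : ∃ h : ℝ, h = Real.log H := ⟨_, rfl⟩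
  have hAh : A ≤ h := by rw [hA, hh]; exact Real.log_le_log hL0 hH2
  have hhle : h ≤ t + A := by
    rw [hh, ht, hA, ← Real.log_mul hlam0.ne' hL0.ne']
    exact Real.log_le_log hH0 hH1
  obtain ⟨ρ, hρ⟩ : ∃ ρ : ℝ, ρ = t / u := ⟨_, rfl⟩
  have hρ2 : 2 ≤ ρ := by rw [hρ]; exact f3
  have hρt : ρ ≤ t := by rw [hρ]; exact f4
  have hρ0 : 0 < ρ := by linarith
  obtain ⟨w', hw'⟩ : ∃ w' : ℝ, w' = K₁ * (t / u) := ⟨_, rfl⟩
  have hw'2 : w' = K₁ * ρ := by rw [hw', hρ]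
  have hw1024 : 1024 ≤ w' := by
    rw [hw'2]
    calc (1024 : ℝ) = 512 * 2 := by norm_num
      _ ≤ K₁ * ρ := mul_le_mul hK512 hρ2 (by norm_num) (by linarith)
  have hw'0 : 0 < w' := by linarith
  have hwB : w' ≤ K₁ * B := by
    rw [hw'2]
    apply mul_le_mul_of_nonneg_left (hρt.trans r2) (by linarith)
  obtain ⟨κ, hκ⟩ : ∃ κ : ℝ, κ = c' / (lam * (t / u)) := ⟨_, rfl⟩
  have hκ2 : κ = c' / (lam * ρ) := by rw [hκ, hρ]
  have hκ0 : 0 < κ := by rw [hκ2]; positivity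
  have hκ1 : κ ≤ 1 / 2 := by
    rw [hκ2, div_le_iff₀ (by positivity)]
    have := mul_le_mul h16 hρ2 (by norm_num) hlam0.le
    linarith
  have hCw : C * w' ≤ h := by
    calc C * w' ≤ C * (K₁ * B) := mul_le_mul_of_nonneg_left hwB (by linarith)
      _ = C * K₁ * B := by ring
      _ ≤ h := b3.trans hAh
  have hlw : 2 * Real.log w' * w' ≤ h := by
    have h1 : Real.log w' ≤ w' := by
      have := Real.log_le_sub_one_of_pos hw'0
      linarith
    have h2 : w' * w' ≤ (K₁ * B) * (K₁ * B) := mul_le_mul hwB hwB hw'0.le (hw'0.le.trans hwB)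
    calc 2 * Real.log w' * w' ≤ 2 * w' * w' := by gcongr
      _ ≤ 2 * ((K₁ * B) * (K₁ * B)) := by linarith
      _ = 2 * K₁ ^ 2 * B ^ 2 := by ring
      _ ≤ h := b4.trans hAh
  obtain ⟨a, ha⟩ := hsb H w' κ h hh hw1024 hκ0.le hκ1 hCw hlw
  have hh2048 : 2048 ≤ h := by
    have := mul_le_mul hC2 hw1024 (by norm_num) (by linarith)
    linarith
  have hh0 : 0 < h := by linarith
  have hκh : 2 ≤ (1 - κ) * h := by
    have : 1 / 2 * h ≤ (1 - κ) * h := mul_le_mul_of_nonneg_right (by linarith) hh0.le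
    linarith
  obtain ⟨hz2, hz1, -⟩ := log_floor ((1 - κ) * h) hκh
  obtain ⟨z, hz⟩ : ∃ z : ℕ, z = ⌊Real.exp ((1 - κ) * h)⌋₊ := ⟨_, rfl⟩
  have hzle : (z : ℝ) ≤ Real.exp ((1 - κ) * h) := by rw [hz]; exact Nat.floor_le (Real.exp_pos _).le
  rw [← hz] at ha hz2 hz1
  have hz2r : (2 : ℝ) ≤ z := by exact_mod_cast hz2
  -- the exponent
  obtain ⟨T, hT⟩ : ∃ T : ℝ, T = L ^ (1 - c' / 4 * (u / (lam * t))) := ⟨_, rfl⟩
  rw [← hT]
  have hcg : c' / 4 * (u / (lam * t)) = κ / 4 := by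
    rw [hκ]; field_simp
  have hTe : T = Real.exp (A * (1 - κ / 4)) := by rw [hT, hcg, Real.rpow_def_of_pos hL0, ← hA]
  have hlog4 : Real.log 4 ≤ 3 / 2 := by
    have h4 : Real.log 4 = 2 * Real.log 2 := by
      rw [show (4 : ℝ) = 2 ^ 2 by norm_num, Real.log_pow]; norm_num
    have := Real.log_two_lt_d9
    linarith
  have hκA : 4 * t ≤ κ * A := by
    rw [hκ2, div_mul_eq_mul_div, le_div_iff₀ (by positivity)]
    have h1 : lam * t ^ 2 / u = t * (lam * ρ) := by rw [hρ]; field_simp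
    rw [h1] at r3
    linarith
  have hzT : 4 * (z : ℝ) ≤ T := by
    have h1 : 4 * Real.exp ((1 - κ) * h) ≤ T := by
      rw [hTe]
      have h2 : 4 * Real.exp ((1 - κ) * h) = Real.exp (Real.log 4 + (1 - κ) * h) := by
        rw [Real.exp_add, Real.exp_log (by norm_num)]
      rw [h2]
      apply Real.exp_le_exp.2
      have h3 : (1 - κ) * h ≤ t + A - κ * A := by
        have e1 : (1 - κ) * h ≤ (1 - κ) * (t + A) := mul_le_mul_of_nonneg_left hhle (by linarith)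
        have e2 : (1 - κ) * (t + A) = t + A - κ * A - κ * t := by ring
        have e3 : 0 ≤ κ * t := by positivity
        linarith
      have e4 : A * (1 - κ / 4) = A - κ * A / 4 := by ring
      linarith
    linarith
  have hTL : T ≤ L := by
    rw [hTe]
    have h1 : L = Real.exp A := by rw [hA, Real.exp_log hL0]
    rw [h1]
    apply Real.exp_le_exp.2
    have e4 : A * (1 - κ / 4) = A - κ * A / 4 := by ring
    have e5 : 0 ≤ κ * A := by positivity
    linarith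
  -- the sizes
  obtain ⟨w, hw⟩ : ∃ w : ℕ, w = ⌊Real.exp (d * L)⌋₊ := ⟨_, rfl⟩
  obtain ⟨hw2, hw1, hw3⟩ := log_floor (d * L) b5
  rw [← hw] at hw2 hw1 hw3
  have hwle : (w : ℝ) ≤ Real.exp (d * L) := by rw [hw]; exact Nat.floor_le (Real.exp_pos _).le
  have hzw : z ≤ w := by
    rw [hw]
    apply Nat.le_floor
    linarith
  have hx0w : x0 ≤ w := by
    rw [hw]
    apply Nat.le_floor
    have := Real.add_one_le_exp (d * L)
    linarith
  obtain ⟨W, hW⟩ : ∃ W : ℕ, W = ∏ p ∈ Pz z, p := ⟨_, rfl⟩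
  have hW0 : 0 < W := by
    rw [hW]
    exact Finset.prod_pos fun p hp => (mem_Pz.1 hp).1.pos
  have hW1 : (1 : ℝ) ≤ W := by exact_mod_cast hW0
  have hWle : (W : ℝ) ≤ Real.exp (3 / 2 * z) := by rw [hW]; exact W_le z
  obtain ⟨Y, hY⟩ : ∃ Y : ℕ, Y = ⌊y⌋₊ := ⟨_, rfl⟩
  have hY1 : y < (Y : ℝ) + 1 := by rw [hY]; exact Nat.lt_floor_add_one _
  obtain ⟨q, hq⟩ : ∃ q : ℕ, q = Y / W := ⟨_, rfl⟩
  obtain ⟨M, hM⟩ : ∃ M : ℕ, M = q - 1 := ⟨_, rfl⟩
  have hyW : Real.exp (5 / 8 * L) ≤ y / W := by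
    rw [le_div_iff₀ (by linarith), hyL]
    calc Real.exp (5 / 8 * L) * W ≤ Real.exp (5 / 8 * L) * Real.exp (3 / 2 * z) := by gcongr
      _ ≤ Real.exp L := by
          rw [← Real.exp_add]
          apply Real.exp_le_exp.2
          linarith
  have hexp10 : (11 : ℝ) ≤ Real.exp (5 / 8 * L) := by
    have := Real.add_one_le_exp (5 / 8 * L)
    linarith
  have hqlow : y / W - 2 < q := by
    have h1 : (Y : ℝ) / W < (q : ℝ) + 1 := by
      rw [hq, ← Nat.floor_div_eq_div (K := ℝ) Y W]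
      exact Nat.lt_floor_add_one _
    have h2 : y / W - 1 ≤ (Y : ℝ) / W := by
      have h3 : y / W - 1 ≤ y / W - 1 / W := by
        have : 1 / (W : ℝ) ≤ 1 := by rw [div_le_one (by linarith)]; exact hW1
        linarith
      refine h3.trans ?_
      rw [← sub_div]
      apply div_le_div_of_nonneg_right _ (by linarith)
      linarith
    linarith
  have hq1 : 1 ≤ q := by
    by_contra hcon
    have : q = 0 := by omega
    rw [this, Nat.cast_zero] at hqlow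
    linarith
  have hMq : M + 1 = q := by omega
  have hMlow : y / W / 2 ≤ M := by
    have : (M : ℝ) + 1 = q := by exact_mod_cast hMq
    linarith
  have hMexp : Real.exp (5 / 8 * L) / 2 ≤ M := by linarith
  have hYM : (∏ p ∈ Pz z, p) * (M + 1) ≤ Y := by
    rw [hMq, ← hW, hq]
    exact Nat.mul_div_le Y W
  have hM1 : Real.exp (L / 2) ≤ M := by
    refine le_trans ?_ hMexp
    rw [le_div_iff₀ (by norm_num)]
    have h1 : (2 : ℝ) ≤ Real.exp (L / 8) := by
      have := Real.add_one_le_exp (L / 8)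
      linarith
    calc Real.exp (L / 2) * 2 ≤ Real.exp (L / 2) * Real.exp (L / 8) := by gcongr
      _ = Real.exp (5 / 8 * L) := by rw [← Real.exp_add]; ring_nf
  have hM0 : (0 : ℝ) < M := (Real.exp_pos _).trans_le hM1
  have hwK : w ^ K ≤ M := by
    have h1 : ((w : ℝ)) ^ K ≤ M := by
      calc ((w : ℝ)) ^ K ≤ Real.exp (d * L) ^ K := pow_le_pow_left₀ (Nat.cast_nonneg _) hwle _
        _ = Real.exp (K * (d * L)) := by rw [← Real.exp_nat_mul]
        _ ≤ Real.exp (L / 2) := by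
            apply Real.exp_le_exp.2
            have e1 := mul_le_mul_of_nonneg_right hdK hL0.le
            have e2 : (K : ℝ) * (d * L) = K * d * L := by ring
            linarith
        _ ≤ M := hM1
    exact_mod_cast h1
  have hcnt := hcount H z w X Y M a hzw hx0w hwK hYM
  -- the density
  obtain ⟨Vr, hVr⟩ : ∃ Vr : ℝ, Vr = V w / V z := ⟨_, rfl⟩
  rw [← hVr] at hcnt
  have hVr0 : 0 ≤ Vr := by rw [hVr]; exact div_nonneg (V_pos w).le (V_pos z).le
  have hlz0 : 0 < Real.log z := Real.log_pos (by exact_mod_cast (by omega : 1 < z))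
  have hlw0 : d * L / 2 ≤ Real.log w := by linarith
  have hVr1 : Vr ≤ 2 * c₂ / (c₁ * d) * (h / L) := by
    have h1 := (hV w hw2).2
    have h2 := (hV z hz2).1
    have h3 : V w ≤ c₂ / (d * L / 2) := by
      rw [le_div_iff₀ (by positivity)]
      calc V w * (d * L / 2) ≤ V w * Real.log w := mul_le_mul_of_nonneg_left hlw0 (V_pos w).le
        _ ≤ c₂ := h1
    have h4 : c₁ / h ≤ V z := by
      rw [div_le_iff₀ (by linarith)]
      refine h2.trans (mul_le_mul_of_nonneg_left ?_ (V_pos z).le)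
      have e1 : (1 - κ) * h = h - κ * h := by ring
      have e2 : 0 ≤ κ * h := by positivity
      linarith
    rw [hVr]
    calc V w / V z ≤ (c₂ / (d * L / 2)) / (c₁ / h) := by
          apply div_le_div₀ (by positivity) h3 _ h4
          have : 0 < h := by linarith
          positivity
      _ = _ := by
          have : 0 < h := by linarith
          field_simp
  have hfin := hss L A lam H h t u w' κ Vr (surv H z a).card hL0 b2 h16 ht hu r3 hH2 hH1 hAh hA0 hw' hκ hVr0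
    hVr1 (Nat.cast_nonneg _) ha
  obtain ⟨S, hS⟩ : ∃ S : ℝ, S = ((surv H z a).card : ℝ) := ⟨_, rfl⟩
  rw [← hS] at hfin hcnt
  have hS0 : 0 ≤ S := by rw [hS]; exact Nat.cast_nonneg _
  have hSH : S ≤ L ^ 2 := by
    have h1 : (surv H z a).card ≤ H := by
      unfold surv
      refine (card_filter_le _ _).trans ?_
      rw [Nat.card_Icc, Nat.add_sub_cancel]
    have h2 : S ≤ H := by rw [hS]; exact_mod_cast h1
    have h3 : lam * L ≤ L * L := mul_le_mul_of_nonneg_right (r1.trans hAL) hL0.le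
    calc S ≤ H := h2
      _ ≤ L * L := hH1.trans h3
      _ = L ^ 2 := by ring
  have hsM : 8 * L ^ 2 ≤ √(M : ℝ) := by
    apply Real.le_sqrt_of_sq_le
    have e1 : (8 * L ^ 2) ^ 2 = 64 * L ^ 4 := by ring
    rw [e1]
    exact b8.trans hM1
  have hsM0 : 0 ≤ √(M : ℝ) := Real.sqrt_nonneg _
  have hSM : S * √(M : ℝ) ≤ M / 8 := by
    have h1 : √(M : ℝ) * √(M : ℝ) = M := Real.mul_self_sqrt hM0.le
    have h2 : S * √(M : ℝ) ≤ L ^ 2 * √(M : ℝ) := mul_le_mul_of_nonneg_right hSH hsM0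
    have h3 : 8 * L ^ 2 * √(M : ℝ) ≤ √(M : ℝ) * √(M : ℝ) := mul_le_mul_of_nonneg_right hsM hsM0
    linarith
  have hwM : (w : ℝ) ≤ M / 8 := by
    have h1 : (w : ℝ) ≤ Real.exp (L / 4) := hwle.trans (Real.exp_le_exp.2 (by
      have := mul_le_mul_of_nonneg_right hd4 hL0.le
      linarith))
    have h2 : (8 : ℝ) ≤ Real.exp (L / 4) := by
      have h3 := Real.quadratic_le_exp_of_nonneg (x := L / 4) (by linarith)
      have h5 : (4 : ℝ) ^ 2 ≤ (L / 4) ^ 2 := pow_le_pow_left₀ (by norm_num) (by linarith) 2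
      linarith
    have h3 : Real.exp (L / 2) = Real.exp (L / 4) * Real.exp (L / 4) := by rw [← Real.exp_add]; ring_nf
    rw [h3] at hM1
    have h4 := Real.exp_pos (L / 4)
    have h6 := mul_le_mul_of_nonneg_right h2 h4.le
    linarith
  have hmain : (M : ℝ) / 2 ≤ (runs H w X Y).card := by
    have h1 : S * (3 / 2 * (M * Vr) + √(M : ℝ)) = M * (S * (3 / 2 * Vr)) + S * √(M : ℝ) := by ring
    rw [h1] at hcnt
    have h2 : M * (S * (3 / 2 * Vr)) ≤ M * (1 / 4) := mul_le_mul_of_nonneg_left hfin hM0.le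
    linarith
  have hwδ : w ≤ ⌊y ^ δ⌋₊ := by
    rw [hw]
    apply Nat.floor_le_floor
    rw [Real.rpow_def_of_pos hy0, ← hL]
    apply Real.exp_le_exp.2
    rw [mul_comm L δ]
    exact mul_le_mul_of_nonneg_right hdδ hL0.le
  have hmono : ((runs H w X Y).card : ℝ) ≤ (runs H ⌊y ^ δ⌋₊ X Y).card := by
    exact_mod_cast runs_mono H w _ X Y hwδ
  rw [← hY]
  refine le_trans ?_ (hmain.trans hmono)
  have h1 : y * Real.exp (-(3 / 2 * z)) ≤ y / W := by
    rw [Real.exp_neg, div_eq_mul_inv]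
    apply mul_le_mul_of_nonneg_left _ hy0.le
    exact inv_anti₀ (by linarith) hWle
  have h2 : Real.exp (-T) ≤ Real.exp (-(3 / 2 * z)) / 4 := by
    rw [le_div_iff₀ (by norm_num)]
    have h3 : (4 : ℝ) = Real.exp (Real.log 4) := (Real.exp_log (by norm_num)).symm
    rw [h3, ← Real.exp_add]
    apply Real.exp_le_exp.2
    linarith
  calc y * Real.exp (-T) ≤ y * (Real.exp (-(3 / 2 * z)) / 4) := mul_le_mul_of_nonneg_left h2 hy0.le
    _ = y * Real.exp (-(3 / 2 * z)) / 4 := by ring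
    _ ≤ y / W / 4 := by gcongr
    _ ≤ M / 2 := by linarith

end Pool.Agent.V5helper42.LR
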